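import Mathlib

set_option autoImplicit false

/-!
Best approximation vectors for arbitrary `m, n` with respect to the Euclidean norms on `ℝᵐ` and
`ℝⁿ`.
-/

namespace Pool.Agent.Work.MP_7453a1_nt_helper12.E

open Filter
open scoped ENNReal

variable {m n : ℕ}

/-- The Euclidean length of the vector `Θ x - y ∈ ℝⁿ`, for a real `n × m` matrix `Θ` and integer
vectors `x ∈ ℤᵐ`, `y ∈ ℤⁿ`. -/
noncomputable def err (Θ : Matrix (Fin n) (Fin m) ℝ) (x : Fin m → ℤ) (y : Fin n → ℤ) : ℝ :=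
  Real.sqrt (∑ i, ((∑ j, Θ i j * x j) - y i) ^ 2)

/-- The square of the Euclidean length of the integer vector `x`. -/
def lenSq (x : Fin m → ℤ) : ℕ := ∑ j, (x j).natAbs ^ 2

/-- Condition (∗): `Θ x` is not an integer vector for any nonzero integer vector `x`. -/
def Admissible (Θ : Matrix (Fin n) (Fin m) ℝ) : Prop :=
  ∀ x : Fin m → ℤ, x ≠ 0 → ∀ y : Fin n → ℤ, ∃ i, (∑ j, Θ i j * x j) ≠ y i

/-- `(x, y)` with `x ≠ 0` is a best approximation vector: the only integer points `(x', y')` with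
`|x'| ≤ |x|` and `|Θ x' - y'| ≤ |Θ x - y|` are `0` and `±(x, y)`. -/
def IsBest (Θ : Matrix (Fin n) (Fin m) ℝ) (x : Fin m → ℤ) (y : Fin n → ℤ) : Prop :=
  x ≠ 0 ∧ ∀ (x' : Fin m → ℤ) (y' : Fin n → ℤ), lenSq x' ≤ lenSq x → err Θ x' y' ≤ err Θ x y →
    (x' = 0 ∧ y' = 0) ∨ (x' = x ∧ y' = y) ∨ (x' = -x ∧ y' = -y)

/-- `N` is the square of `|x|` for some best approximation vector `(x, y)`. -/
def IsBestLenSq (Θ : Matrix (Fin n) (Fin m) ℝ) (N : ℕ) : Prop :=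
  ∃ (x : Fin m → ℤ) (y : Fin n → ℤ), IsBest Θ x y ∧ lenSq x = N

/-- `M_ν`, `ν = 1, 2, …`: the Euclidean lengths `|x|` of the `x`-parts of the best approximation
vectors `(x, y)` in increasing order. -/
noncomputable def M (Θ : Matrix (Fin n) (Fin m) ℝ) (ν : ℕ) : ℝ :=
  Real.sqrt (Nat.nth (IsBestLenSq Θ) (ν - 1))

/-- `G(Θ) = liminf M_ν ^ (1/ν)`. -/
noncomputable def G (Θ : Matrix (Fin n) (Fin m) ℝ) : ℝ≥0∞ :=
  liminf (fun ν : ℕ => ENNReal.ofReal (M Θ ν ^ (1 / (ν : ℝ)))) atTop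

/-- `g = inf G(Θ)` over all real `n × m` matrices `Θ` satisfying (∗), for the Euclidean norms on
`ℝᵐ` and `ℝⁿ`. -/
noncomputable def g (m n : ℕ) : ℝ≥0∞ :=
  ⨅ (Θ : Matrix (Fin n) (Fin m) ℝ) (_ : Admissible Θ), G Θ

end Pool.Agent.Work.MP_7453a1_nt_helper12.E
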