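import Mathlib

set_option autoImplicit false

namespace Pool.Agent.Work.MP_7453a1_nt_helper12

open Real

/-- Two numbers in `(-π/2, π/2)`, in increasing order, whose difference has cosine at most `1/2`,
differ by at least `π/3`. -/
lemma diff_ge {α β : ℝ} (h1 : -(π / 2) < α) (h2 : β < π / 2) (h : α ≤ β)
    (hc : Real.cos (β - α) ≤ 1 / 2) : π / 3 ≤ β - α := by
  by_contra hcon
  push Not at hcon
  have : Real.cos (π / 3) < Real.cos (β - α) :=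
    Real.cos_lt_cos_of_nonneg_of_le_pi (by linarith) (by linarith [Real.pi_pos]) hcon
  rw [Real.cos_pi_div_three] at this
  linarith

lemma outer {r s R c : ℝ} (hr0 : 0 ≤ r) (hs0 : 0 ≤ s) (hr : r ≤ R) (hs : s ≤ R)
    (hc : c ≤ -(1 / 2)) : r ^ 2 + s ^ 2 + 2 * (r * s) * c ≤ R ^ 2 := by
  have h1 : 2 * (r * s) * c ≤ 2 * (r * s) * (-(1 / 2)) :=
    mul_le_mul_of_nonneg_left hc (by positivity)
  rcases le_total r s with h | h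
  · nlinarith [mul_nonneg hr0 (sub_nonneg.mpr h)]
  · nlinarith [mul_nonneg hs0 (sub_nonneg.mpr h)]

/-- The final contradiction. -/
lemma final {R Q s c : ℝ} (hR : 0 < R) (hQ : R ≤ Q) (hs0 : 0 < s) (hs : s ≤ R)
    (hQs : Q < s + R / 2) (hc : 1.732 / 2 ≤ c) : Q ^ 2 + s ^ 2 - 2 * Q * s * c < R ^ 2 := by
  have hQ0 : 0 < Q := by linarith
  have h1 : 2 * Q * s * (1.732 / 2) ≤ 2 * Q * s * c :=
    mul_le_mul_of_nonneg_left hc (by positivity)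
  have h2 : 0 ≤ (Q - R) * (s + R / 2 - Q) := mul_nonneg (by linarith) (by linarith)
  have h3 : 0 ≤ (s + R / 2 - Q) * (3 * R / 2 - 0.732 * s) :=
    mul_nonneg (by linarith) (by linarith)
  have h4 : 0 ≤ s * (R - s) := mul_nonneg hs0.le (by linarith)
  have h5 : 0 ≤ R * (R - s) := mul_nonneg hR.le (by linarith)
  have h6 : 0 < R * R := mul_pos hR hR
  nlinarith

lemma dot_eq (x y : ℂ) :
    x.re * y.re + x.im * y.im = ‖x‖ * ‖y‖ * Real.cos (y.arg - x.arg) := by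
  have h1 := Complex.norm_mul_cos_arg x
  have h2 := Complex.norm_mul_sin_arg x
  have h3 := Complex.norm_mul_cos_arg y
  have h4 := Complex.norm_mul_sin_arg y
  rw [Real.cos_sub, ← h1, ← h2, ← h3, ← h4]
  ring

lemma sq_norm (x : ℂ) : ‖x‖ ^ 2 = x.re ^ 2 + x.im ^ 2 := by
  rw [← Complex.normSq_eq_norm_sq, Complex.normSq_apply]; ring

lemma sq_norm_sub (x y : ℂ) :
    ‖x - y‖ ^ 2 = ‖x‖ ^ 2 + ‖y‖ ^ 2 - 2 * (‖x‖ * ‖y‖ * Real.cos (y.arg - x.arg)) := by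
  rw [← dot_eq, sq_norm, sq_norm, sq_norm, Complex.sub_re, Complex.sub_im]; ring

lemma sq_norm_add (x y : ℂ) :
    ‖x + y‖ ^ 2 = ‖x‖ ^ 2 + ‖y‖ ^ 2 + 2 * (‖x‖ * ‖y‖) * Real.cos (y.arg - x.arg) := by
  have := dot_eq x y
  have h : ‖x + y‖ ^ 2 = ‖x‖ ^ 2 + ‖y‖ ^ 2 + 2 * (x.re * y.re + x.im * y.im) := by
    rw [sq_norm, sq_norm, sq_norm, Complex.add_re, Complex.add_im]; ring
  rw [h, this]; ring

/-- Two vectors of length at most `R` and distance at least `R` make an angle of cosine at most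
`1/2`. -/
lemma cos_le_half {R : ℝ} {x y : ℂ} (hR : 0 < R) (hx0 : 0 < ‖x‖) (hy0 : 0 < ‖y‖)
    (hx : ‖x‖ ≤ R) (hy : ‖y‖ ≤ R) (hxy : R ≤ ‖x - y‖) : Real.cos (y.arg - x.arg) ≤ 1 / 2 := by
  by_contra hcon
  push Not at hcon
  have h := sq_norm_sub x y
  have h1 : R ^ 2 ≤ ‖x - y‖ ^ 2 := pow_le_pow_left₀ hR.le hxy 2
  have h2 : ‖x‖ * ‖y‖ * (1 / 2) < ‖x‖ * ‖y‖ * Real.cos (y.arg - x.arg) :=
    mul_lt_mul_of_pos_left hcon (mul_pos hx0 hy0)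
  rcases le_total ‖x‖ ‖y‖ with h3 | h3
  · have h4 : ‖y‖ ^ 2 ≤ R ^ 2 := pow_le_pow_left₀ hy0.le hy 2
    nlinarith
  · have h4 : ‖x‖ ^ 2 ≤ R ^ 2 := pow_le_pow_left₀ hx0.le hx 2
    nlinarith

lemma arg_bounds {x : ℂ} (hx : 0 < x.re) : -(π / 2) < x.arg ∧ x.arg < π / 2 := by
  have := Complex.abs_arg_lt_pi_div_two_iff.mpr (Or.inl hx)
  rwa [abs_lt] at this

/-- Three vectors around the positive real axis, sorted by argument. -/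
lemma sorted {R Q : ℝ} {a b c : ℂ} (hR : 0 < R) (hQ : R ≤ Q)
    (ha0 : 0 < ‖a‖) (hb0 : 0 < ‖b‖) (hc0 : 0 < ‖c‖)
    (ha : ‖a‖ ≤ R) (hb : ‖b‖ ≤ R) (hc : ‖c‖ ≤ R)
    (hare : 0 < a.re) (hbre : 0 < b.re) (hcre : 0 < c.re)
    (hab : R ≤ ‖a - b‖) (hbc : R ≤ ‖b - c‖)
    (hqb : R ≤ ‖(Q : ℂ) - b‖)
    (hd : ‖a + b + c - 2 * (Q : ℂ)‖ < ‖b‖)
    (h12 : a.arg ≤ b.arg) (h23 : b.arg ≤ c.arg) : False := by
  obtain ⟨a1, a2⟩ := arg_bounds hare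
  obtain ⟨b1, b2⟩ := arg_bounds hbre
  obtain ⟨c1, c2⟩ := arg_bounds hcre
  have hpi := Real.pi_pos
  have d1 := diff_ge a1 b2 h12 (cos_le_half hR ha0 hb0 ha hb hab)
  have d2 := diff_ge b1 c2 h23 (cos_le_half hR hb0 hc0 hb hc hbc)
  -- the middle one is within `π/6` of the axis
  have hbcos : 1.732 / 2 ≤ Real.cos b.arg := by
    have h1 : |b.arg| ≤ π / 6 := by rw [abs_le]; constructor <;> linarith
    have h2 : Real.cos (π / 6) ≤ Real.cos |b.arg| :=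
      Real.cos_le_cos_of_nonneg_of_le_pi (abs_nonneg _) (by linarith) h1
    rw [Real.cos_abs, Real.cos_pi_div_six] at h2
    have h3 : (1.732 : ℝ) ≤ Real.sqrt 3 := Real.le_sqrt_of_sq_le (by norm_num)
    linarith
  -- the outer two
  have hout : ‖a + c‖ ≤ R := by
    have h1 : Real.cos (c.arg - a.arg) ≤ -(1 / 2) := by
      have h2 : Real.cos (c.arg - a.arg) ≤ Real.cos (π - π / 3) :=
        Real.cos_le_cos_of_nonneg_of_le_pi (by linarith) (by linarith) (by linarith)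
      rw [Real.cos_pi_sub, Real.cos_pi_div_three] at h2
      exact h2
    have h3 := outer ha0.le hc0.le ha hc h1
    rw [← sq_norm_add] at h3
    exact le_of_sq_le_sq h3 hR.le
  have hQ0 : 0 < Q := by linarith
  have hQs : Q < ‖b‖ + R / 2 := by
    have h1 : ‖2 * (Q : ℂ)‖ = 2 * Q := by
      rw [norm_mul, Complex.norm_real, Real.norm_of_nonneg hQ0.le]; norm_num
    have h2 : 2 * (Q : ℂ) = (a + c) + b - (a + b + c - 2 * (Q : ℂ)) := by ring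
    have h3 : ‖2 * (Q : ℂ)‖ ≤ ‖a + c‖ + ‖b‖ + ‖a + b + c - 2 * (Q : ℂ)‖ := by
      rw [h2]
      refine (norm_sub_le _ _).trans ?_
      have := norm_add_le (a + c) b
      have h5 : (a + c + b - (a + b + c - 2 * (Q : ℂ))) = 2 * (Q : ℂ) := by ring
      rw [h5]
      linarith
    linarith
  have hfin := final hR hQ hb0 hb hQs hbcos
  have h6 : ‖(Q : ℂ) - b‖ ^ 2 = Q ^ 2 + ‖b‖ ^ 2 - 2 * Q * ‖b‖ * Real.cos b.arg := by
    rw [sq_norm_sub, Complex.arg_ofReal_of_nonneg hQ0.le, Complex.norm_real,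
      Real.norm_of_nonneg hQ0.le, sub_zero]
    ring
  have h7 : R ^ 2 ≤ ‖(Q : ℂ) - b‖ ^ 2 := pow_le_pow_left₀ hR.le hqb 2
  linarith

/-- The vector `q` on the positive real axis. -/
lemma axis {R Q : ℝ} {a b c : ℂ} (hR : 0 < R) (hQ : R ≤ Q)
    (ha : ‖a‖ ≤ R) (hb : ‖b‖ ≤ R) (hc : ‖c‖ ≤ R)
    (hab : R ≤ ‖a - b‖) (hbc : R ≤ ‖b - c‖) (hac : R ≤ ‖a - c‖)
    (hqa : R ≤ ‖(Q : ℂ) - a‖) (hqb : R ≤ ‖(Q : ℂ) - b‖) (hqc : R ≤ ‖(Q : ℂ) - c‖)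
    (hda : ‖a + b + c - 2 * (Q : ℂ)‖ < ‖a‖) (hdb : ‖a + b + c - 2 * (Q : ℂ)‖ < ‖b‖)
    (hdc : ‖a + b + c - 2 * (Q : ℂ)‖ < ‖c‖) : False := by
  have hQ0 : 0 < Q := by linarith
  have ha0 : 0 < ‖a‖ := (norm_nonneg _).trans_lt hda
  have hb0 : 0 < ‖b‖ := (norm_nonneg _).trans_lt hdb
  have hc0 : 0 < ‖c‖ := (norm_nonneg _).trans_lt hdc
  have up : ∀ y : ℂ, ‖y‖ ≤ R → R ≤ ‖(Q : ℂ) - y‖ → y.re ≤ Q / 2 := by
    intro y hy hqy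
    have h1 : R ^ 2 ≤ ‖(Q : ℂ) - y‖ ^ 2 := pow_le_pow_left₀ hR.le hqy 2
    have h2 : ‖y‖ ^ 2 ≤ R ^ 2 := pow_le_pow_left₀ (norm_nonneg _) hy 2
    rw [sq_norm, Complex.sub_re, Complex.sub_im, Complex.ofReal_re, Complex.ofReal_im] at h1
    rw [sq_norm] at h2
    by_contra hcon
    push Not at hcon
    nlinarith
  have ua := up a ha hqa
  have ub := up b hb hqb
  have uc := up c hc hqc
  have hre : 2 * Q - (a.re + b.re + c.re) ≤ ‖a + b + c - 2 * (Q : ℂ)‖ := by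
    have h1 := Complex.abs_re_le_norm (a + b + c - 2 * (Q : ℂ))
    have h2 : (a + b + c - 2 * (Q : ℂ)).re = a.re + b.re + c.re - 2 * Q := by simp
    rw [h2] at h1
    have := neg_le_of_abs_le h1
    linarith
  have hdR : ‖a + b + c - 2 * (Q : ℂ)‖ < Q := by linarith
  have are : 0 < a.re := by linarith
  have bre : 0 < b.re := by linarith
  have cre : 0 < c.re := by linarith
  have hba : R ≤ ‖b - a‖ := by rwa [norm_sub_rev]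
  have hcb : R ≤ ‖c - b‖ := by rwa [norm_sub_rev]
  have hca : R ≤ ‖c - a‖ := by rwa [norm_sub_rev]
  have e1 : a + c + b - 2 * (Q : ℂ) = a + b + c - 2 * (Q : ℂ) := by ring
  have e2 : b + a + c - 2 * (Q : ℂ) = a + b + c - 2 * (Q : ℂ) := by ring
  have e3 : b + c + a - 2 * (Q : ℂ) = a + b + c - 2 * (Q : ℂ) := by ring
  have e4 : c + a + b - 2 * (Q : ℂ) = a + b + c - 2 * (Q : ℂ) := by ring
  have e5 : c + b + a - 2 * (Q : ℂ) = a + b + c - 2 * (Q : ℂ) := by ring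
  rcases le_total a.arg b.arg with h1 | h1 <;> rcases le_total b.arg c.arg with h2 | h2 <;>
    rcases le_total a.arg c.arg with h3 | h3
  · exact sorted hR hQ ha0 hb0 hc0 ha hb hc are bre cre hab hbc hqb hdb h1 h2
  · exact sorted hR hQ ha0 hb0 hc0 ha hb hc are bre cre hab hbc hqb hdb h1 h2
  · exact sorted hR hQ ha0 hc0 hb0 ha hc hb are cre bre hac hcb hqc (by rwa [e1]) h3 h2
  · exact sorted hR hQ hc0 ha0 hb0 hc ha hb cre are bre hca hab hqa (by rwa [e4]) h3 h1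
  · exact sorted hR hQ hb0 ha0 hc0 hb ha hc bre are cre hba hac hqa (by rwa [e2]) h1 h3
  · exact sorted hR hQ hb0 hc0 ha0 hb hc ha bre cre are hbc hca hqc (by rwa [e3]) h2 h3
  · exact sorted hR hQ hc0 hb0 ha0 hc hb ha cre bre are hcb hba hqb (by rwa [e5]) h2 h1
  · exact sorted hR hQ hc0 hb0 ha0 hc hb ha cre bre are hcb hba hqb (by rwa [e5]) h2 h1

/-- The geometric lemma. -/
lemma geom {R : ℝ} {a b c q : ℂ} (hR : 0 < R) (hq : R ≤ ‖q‖)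
    (ha : ‖a‖ ≤ R) (hb : ‖b‖ ≤ R) (hc : ‖c‖ ≤ R)
    (hab : R ≤ ‖a - b‖) (hbc : R ≤ ‖b - c‖) (hac : R ≤ ‖a - c‖)
    (hqa : R ≤ ‖q - a‖) (hqb : R ≤ ‖q - b‖) (hqc : R ≤ ‖q - c‖)
    (hda : ‖a + b + c - 2 * q‖ < ‖a‖) (hdb : ‖a + b + c - 2 * q‖ < ‖b‖)
    (hdc : ‖a + b + c - 2 * q‖ < ‖c‖) : False := by
  have hq0 : 0 < ‖q‖ := by linarith
  set u : ℂ := (starRingEnd ℂ) q / (‖q‖ : ℂ) with hu
  have hun : ‖u‖ = 1 := by
    rw [hu, norm_div, RCLike.norm_conj, Complex.norm_real, Real.norm_of_nonneg hq0.le,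
      div_self hq0.ne']
  have hqu : q * u = (‖q‖ : ℂ) := by
    rw [hu, mul_div_assoc', Complex.mul_conj, Complex.normSq_eq_norm_sq]
    push_cast
    have : (‖q‖ : ℂ) ≠ 0 := by exact_mod_cast hq0.ne'
    field_simp
  have hn : ∀ x : ℂ, ‖x * u‖ = ‖x‖ := by intro x; rw [norm_mul, hun, mul_one]
  have hn' : ∀ x y : ℂ, ‖x * u - y * u‖ = ‖x - y‖ := by
    intro x y; rw [← sub_mul, hn]
  refine axis (R := R) (Q := ‖q‖) (a := a * u) (b := b * u) (c := c * u) hR hq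
    (by rwa [hn]) (by rwa [hn]) (by rwa [hn]) (by rwa [hn']) (by rwa [hn']) (by rwa [hn'])
    (by rwa [← hqu, hn']) (by rwa [← hqu, hn']) (by rwa [← hqu, hn']) ?_ ?_ ?_
  all_goals
    rw [← hqu, hn, show a * u + b * u + c * u - 2 * (q * u) = (a + b + c - 2 * q) * u by ring, hn]
    assumption

/-- The geometric lemma in real coordinates, with squares of lengths. -/
lemma geom' {R2 a1 a2 b1 b2 c1 c2 q1 q2 : ℝ} (hR : 0 < R2) (hq : R2 ≤ q1 ^ 2 + q2 ^ 2)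
    (ha : a1 ^ 2 + a2 ^ 2 ≤ R2) (hb : b1 ^ 2 + b2 ^ 2 ≤ R2) (hc : c1 ^ 2 + c2 ^ 2 ≤ R2)
    (hab : R2 ≤ (a1 - b1) ^ 2 + (a2 - b2) ^ 2) (hbc : R2 ≤ (b1 - c1) ^ 2 + (b2 - c2) ^ 2)
    (hac : R2 ≤ (a1 - c1) ^ 2 + (a2 - c2) ^ 2)
    (hqa : R2 ≤ (q1 - a1) ^ 2 + (q2 - a2) ^ 2) (hqb : R2 ≤ (q1 - b1) ^ 2 + (q2 - b2) ^ 2)
    (hqc : R2 ≤ (q1 - c1) ^ 2 + (q2 - c2) ^ 2)
    (hda : (a1 + b1 + c1 - 2 * q1) ^ 2 + (a2 + b2 + c2 - 2 * q2) ^ 2 < a1 ^ 2 + a2 ^ 2)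
    (hdb : (a1 + b1 + c1 - 2 * q1) ^ 2 + (a2 + b2 + c2 - 2 * q2) ^ 2 < b1 ^ 2 + b2 ^ 2)
    (hdc : (a1 + b1 + c1 - 2 * q1) ^ 2 + (a2 + b2 + c2 - 2 * q2) ^ 2 < c1 ^ 2 + c2 ^ 2) :
    False := by
  have hs : Real.sqrt R2 ^ 2 = R2 := Real.sq_sqrt hR.le
  have hs0 : 0 < Real.sqrt R2 := Real.sqrt_pos.mpr hR
  have le1 : ∀ z : ℂ, z.re ^ 2 + z.im ^ 2 ≤ R2 → ‖z‖ ≤ Real.sqrt R2 := by
    intro z hz
    apply Real.le_sqrt_of_sq_le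
    rwa [sq_norm]
  have le2 : ∀ z : ℂ, R2 ≤ z.re ^ 2 + z.im ^ 2 → Real.sqrt R2 ≤ ‖z‖ := by
    intro z hz
    rw [← sq_norm] at hz
    exact Real.sqrt_le_iff.mpr ⟨norm_nonneg _, hz⟩
  have lt1 : ∀ z w : ℂ, z.re ^ 2 + z.im ^ 2 < w.re ^ 2 + w.im ^ 2 → ‖z‖ < ‖w‖ := by
    intro z w hz
    rw [← sq_norm, ← sq_norm] at hz
    exact lt_of_pow_lt_pow_left₀ 2 (norm_nonneg _) hz
  refine geom (R := Real.sqrt R2) (a := ⟨a1, a2⟩) (b := ⟨b1, b2⟩) (c := ⟨c1, c2⟩)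
    (q := ⟨q1, q2⟩) hs0 (le2 _ hq) (le1 _ ha) (le1 _ hb) (le1 _ hc) (le2 _ hab) (le2 _ hbc)
    (le2 _ hac) (le2 _ hqa) (le2 _ hqb) (le2 _ hqc) (lt1 _ _ ?_) (lt1 _ _ ?_) (lt1 _ _ ?_)
  all_goals simpa using (by assumption)

/-- The planar Gram lemma. All quantities are real: `E, v, w` are plane vectors. -/
lemma gram {R2 t2 E1 E2 v1 v2 w1 w2 : ℝ} (hR : 0 < R2) (htR : R2 < t2)
    (hE : E1 ^ 2 + E2 ^ 2 = t2) (hV : t2 < v1 ^ 2 + v2 ^ 2) (hW : R2 ≤ w1 ^ 2 + w2 ^ 2)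
    (hVW : v1 ^ 2 + v2 ^ 2 + (w1 ^ 2 + w2 ^ 2) < 4 * R2)
    (hg1 : 2 * (v1 * w1 + v2 * w2) < R2) (hg2 : -R2 < 2 * (v1 * w1 + v2 * w2))
    (h1 : 4 * t2 ≤ (E1 + (v1 - w1)) ^ 2 + (E2 + (v2 - w2)) ^ 2)
    (h2 : 4 * t2 ≤ (E1 - (v1 - w1)) ^ 2 + (E2 - (v2 - w2)) ^ 2)
    (h3 : 4 * t2 ≤ (E1 - (v1 + w1)) ^ 2 + (E2 - (v2 + w2)) ^ 2)
    (h4 : 4 * R2 ≤ (E1 + (v1 + w1)) ^ 2 + (E2 + (v2 + w2)) ^ 2) : False := by
  set V := v1 ^ 2 + v2 ^ 2 with hVd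
  set W := w1 ^ 2 + w2 ^ 2 with hWd
  set g := v1 * w1 + v2 * w2 with hgd
  set X := E1 * v1 + E2 * v2 with hXd
  set Y := E1 * w1 + E2 * w2 with hYd
  have e1 : (E1 + (v1 - w1)) ^ 2 + (E2 + (v2 - w2)) ^ 2
      = (E1 ^ 2 + E2 ^ 2) + V + W - 2 * g + 2 * X - 2 * Y := by
    rw [hVd, hWd, hgd, hXd, hYd]; ring
  have e2 : (E1 - (v1 - w1)) ^ 2 + (E2 - (v2 - w2)) ^ 2
      = (E1 ^ 2 + E2 ^ 2) + V + W - 2 * g - 2 * X + 2 * Y := by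
    rw [hVd, hWd, hgd, hXd, hYd]; ring
  have e3 : (E1 - (v1 + w1)) ^ 2 + (E2 - (v2 + w2)) ^ 2
      = (E1 ^ 2 + E2 ^ 2) + V + W + 2 * g - 2 * X - 2 * Y := by
    rw [hVd, hWd, hgd, hXd, hYd]; ring
  have e4 : (E1 + (v1 + w1)) ^ 2 + (E2 + (v2 + w2)) ^ 2
      = (E1 ^ 2 + E2 ^ 2) + V + W + 2 * g + 2 * X + 2 * Y := by
    rw [hVd, hWd, hgd, hXd, hYd]; ring
  rw [e1, hE] at h1
  rw [e2, hE] at h2
  rw [e3, hE] at h3
  rw [e4, hE] at h4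
  have key : (E1 ^ 2 + E2 ^ 2) * (V * W - g ^ 2) = X ^ 2 * W - 2 * X * Y * g + Y ^ 2 * V := by
    rw [hVd, hWd, hgd, hXd, hYd]; ring
  rw [hE] at key
  clear_value V W g X Y
  have hX1 : X < R2 / 2 := by linarith
  have hX2 : -(R2 / 2) < X := by linarith
  have hY1 : Y < R2 / 2 := by linarith
  have hY2 : -(R2 / 2) < Y := by linarith
  have hX : X ^ 2 ≤ (R2 / 2) ^ 2 := sq_le_sq' hX2.le hX1.le
  have hY : Y ^ 2 ≤ (R2 / 2) ^ 2 := sq_le_sq' hY2.le hY1.le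
  have hg : g ^ 2 ≤ (R2 / 2) ^ 2 := sq_le_sq' (by linarith) (by linarith)
  have hXYg : -(2 * X * Y * g) ≤ 2 * (R2 / 2) ^ 3 := by
    have h5 : |X * Y| ≤ (R2 / 2) * (R2 / 2) := by
      rw [abs_mul]
      exact mul_le_mul (abs_le.mpr ⟨hX2.le, hX1.le⟩) (abs_le.mpr ⟨hY2.le, hY1.le⟩)
        (abs_nonneg _) (by linarith)
    have h6 : |X * Y * g| ≤ (R2 / 2) * (R2 / 2) * (R2 / 2) := by
      rw [abs_mul]
      exact mul_le_mul h5 (abs_le.mpr ⟨by linarith, by linarith⟩) (abs_nonneg _) (by positivity)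
    have h7 := neg_le_of_abs_le h6
    have h8 : (R2 / 2) * (R2 / 2) * (R2 / 2) = (R2 / 2) ^ 3 := by ring
    rw [h8] at h7
    have h9 : 2 * X * Y * g = 2 * (X * Y * g) := by ring
    rw [h9]
    linarith
  have hV0 : R2 < V := by linarith
  have up : X ^ 2 * W - 2 * X * Y * g + Y ^ 2 * V ≤ (R2 / 2) ^ 2 * (W + V) + 2 * (R2 / 2) ^ 3 := by
    have h5 : X ^ 2 * W ≤ (R2 / 2) ^ 2 * W := mul_le_mul_of_nonneg_right hX (by linarith)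
    have h6 : Y ^ 2 * V ≤ (R2 / 2) ^ 2 * V := mul_le_mul_of_nonneg_right hY (by linarith)
    linarith
  have hVW2 : R2 * V + R2 * W - R2 ^ 2 ≤ V * W := by
    have h5 : 0 ≤ (V - R2) * (W - R2) := mul_nonneg (by linarith) (by linarith)
    linarith [show (V - R2) * (W - R2) = V * W - (R2 * V + R2 * W - R2 ^ 2) by ring]
  have hVW3 : 0 < R2 * (V + W - 2 * R2) := mul_pos hR (by linarith)
  have hR20 : 0 < R2 ^ 2 := by positivity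
  have hg' : g ^ 2 ≤ R2 ^ 2 / 4 := by
    have : (R2 / 2) ^ 2 = R2 ^ 2 / 4 := by ring
    linarith
  have hVW4 : R2 * (V + W - 2 * R2) = R2 * V + R2 * W - 2 * R2 ^ 2 := by ring
  have hVWg : 0 < V * W - g ^ 2 := by linarith
  have lo : R2 * (V * W - g ^ 2) < t2 * (V * W - g ^ 2) := mul_lt_mul_of_pos_right htR hVWg
  have h8 : R2 * (R2 * V + R2 * W - R2 ^ 2 - R2 ^ 2 / 4) ≤ R2 * (V * W - g ^ 2) := by
    apply mul_le_mul_of_nonneg_left _ hR.le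
    linarith
  have h9 : (R2 / 2) ^ 2 * (W + V) + 2 * (R2 / 2) ^ 3
      ≤ R2 * (R2 * V + R2 * W - R2 ^ 2 - R2 ^ 2 / 4) := by
    have h10 : 0 ≤ R2 ^ 2 * (V + W - 2 * R2) := mul_nonneg (by positivity) (by linarith)
    have h11 : R2 * (R2 * V + R2 * W - R2 ^ 2 - R2 ^ 2 / 4)
        - ((R2 / 2) ^ 2 * (W + V) + 2 * (R2 / 2) ^ 3) = 3 / 4 * (R2 ^ 2 * (V + W - 2 * R2)) := by
      ring
    linarith
  linarith

end Pool.Agent.Work.MP_7453a1_nt_helper12
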