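import Mathlib
import Pool.Agent.Work.MP_7453a1_nt.Defs
import Pool.Agent.Work.MP_7453a1_nt_helper12.Six

set_option autoImplicit false

namespace Pool.Agent.Work.MP_7453a1_nt_helper12

open Pool.Agent.Work.MP_7453a1_nt

/-- First coordinate. -/
def xh : Pt →+ ℤ := AddMonoidHom.fst _ _

/-- First component of the error vector. -/
noncomputable def fh (Θ : Fin 2 → ℝ) : Pt →+ ℝ :=
  AddMonoidHom.mk' (fun z => (z.1 : ℝ) * Θ 0 - z.2.1) (by intro a b; simp; ring)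

/-- Second component of the error vector. -/
noncomputable def gh (Θ : Fin 2 → ℝ) : Pt →+ ℝ :=
  AddMonoidHom.mk' (fun z => (z.1 : ℝ) * Θ 1 - z.2.2) (by intro a b; simp; ring)

@[simp] lemma xh_apply (z : Pt) : xh z = z.1 := rfl

/-- The squared length of the error vector. -/
noncomputable abbrev NN (Θ : Fin 2 → ℝ) (z : Pt) : ℝ := N (fh Θ) (gh Θ) z

lemma NN_apply (Θ : Fin 2 → ℝ) (z : Pt) :
    NN Θ z = ((z.1 : ℝ) * Θ 0 - z.2.1) ^ 2 + ((z.1 : ℝ) * Θ 1 - z.2.2) ^ 2 := rfl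

lemma NN_nonneg (Θ : Fin 2 → ℝ) (z : Pt) : 0 ≤ NN Θ z := N_nonneg z

lemma NN_neg (Θ : Fin 2 → ℝ) (z : Pt) : NN Θ (-z) = NN Θ z := N_neg z

lemma dist2_eq (Θ : Fin 2 → ℝ) (q : ℤ) (p : Fin 2 → ℤ) :
    dist2 Θ q p = Real.sqrt (NN Θ (q, p 0, p 1)) := by
  rw [dist2, Fin.sum_univ_two, NN_apply]

lemma dist2_le_iff (Θ : Fin 2 → ℝ) (q q' : ℤ) (p p' : Fin 2 → ℤ) :
    dist2 Θ q' p' ≤ dist2 Θ q p ↔ NN Θ (q', p' 0, p' 1) ≤ NN Θ (q, p 0, p 1) := by
  rw [dist2_eq, dist2_eq, Real.sqrt_le_sqrt_iff (NN_nonneg _ _)]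

/-- Best approximation points with positive first coordinate. -/
def BestPt (Θ : Fin 2 → ℝ) (z : Pt) : Prop :=
  0 < z.1 ∧ ∀ w : Pt, |w.1| ≤ z.1 → NN Θ w ≤ NN Θ z → w = 0 ∨ w = z ∨ w = -z

lemma isBest_iff (Θ : Fin 2 → ℝ) (z : Pt) (hz : 0 < z.1) :
    IsBest Θ z.1 ![z.2.1, z.2.2] ↔ BestPt Θ z := by
  unfold IsBest BestPt
  constructor
  · rintro ⟨_, h⟩
    refine ⟨hz, fun w hw hN => ?_⟩
    rcases h w.1 ![w.2.1, w.2.2] (by rwa [abs_of_pos hz])
      (by rw [dist2_le_iff]; simpa using hN) with ⟨h1, h2⟩ | ⟨h1, h2⟩ | ⟨h1, h2⟩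
    · left
      have a := congrFun h2 0
      have b := congrFun h2 1
      simp at a b
      ext <;> simp [*]
    · right; left
      have a := congrFun h2 0
      have b := congrFun h2 1
      simp at a b
      ext <;> simp [*]
    · right; right
      have a := congrFun h2 0
      have b := congrFun h2 1
      simp at a b
      ext <;> simp [*]
  · rintro ⟨_, h⟩
    refine ⟨hz.ne', fun q p hq hd => ?_⟩
    rw [dist2_le_iff] at hd
    rw [abs_of_pos hz] at hq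
    rcases h (q, p 0, p 1) hq (by simpa using hd) with h1 | h1 | h1
    · left
      have a := congrArg (fun z : Pt => z.1) h1
      have b := congrArg (fun z : Pt => z.2.1) h1
      have c := congrArg (fun z : Pt => z.2.2) h1
      simp at a b c
      refine ⟨a, ?_⟩
      ext i; fin_cases i <;> simp [*]
    · right; left
      have a := congrArg (fun z : Pt => z.1) h1
      have b := congrArg (fun z : Pt => z.2.1) h1
      have c := congrArg (fun z : Pt => z.2.2) h1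
      simp at a b c
      refine ⟨a, ?_⟩
      ext i; fin_cases i <;> simp [*]
    · right; right
      have a := congrArg (fun z : Pt => z.1) h1
      have b := congrArg (fun z : Pt => z.2.1) h1
      have c := congrArg (fun z : Pt => z.2.2) h1
      simp at a b c
      refine ⟨a, ?_⟩
      ext i; fin_cases i <;> simp [*]

lemma isBest_neg {Θ : Fin 2 → ℝ} {q : ℤ} {p : Fin 2 → ℤ} (h : IsBest Θ q p) :
    IsBest Θ (-q) (-p) := by
  obtain ⟨h0, h⟩ := h
  refine ⟨neg_ne_zero.mpr h0, fun q' p' hq hd => ?_⟩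
  have e : dist2 Θ (-q) (-p) = dist2 Θ q p := by
    rw [dist2_eq, dist2_eq]
    congr 1
    exact NN_neg Θ (q, p 0, p 1)
  rw [e] at hd
  rw [abs_neg] at hq
  rcases h q' p' hq hd with h | h | h
  · exact Or.inl h
  · right; right; simpa using h
  · right; left; exact h

lemma bestDen_iff (Θ : Fin 2 → ℝ) (m : ℕ) :
    IsBestDenominator Θ m ↔ ∃ z : Pt, BestPt Θ z ∧ z.1 = m := by
  constructor
  · rintro ⟨q, p, h, hm⟩
    have aux : ∀ (q : ℤ) (p : Fin 2 → ℤ), 0 < q → IsBest Θ q p → BestPt Θ (q, p 0, p 1) := by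
      intro q p hq h
      rw [← isBest_iff Θ (q, p 0, p 1) hq]
      have e : ![p 0, p 1] = p := by ext i; fin_cases i <;> rfl
      simpa [e] using h
    rcases lt_or_gt_of_ne h.1 with h1 | h1
    · exact ⟨(-q, -p 0, -p 1), aux (-q) (-p) (by omega) (isBest_neg h), by simp; omega⟩
    · exact ⟨(q, p 0, p 1), aux q p h1 h, by simp; omega⟩
  · rintro ⟨z, hz, hm⟩
    exact ⟨z.1, ![z.2.1, z.2.2], (isBest_iff Θ z hz.1).mpr hz, by omega⟩

/-- Integers of absolute value less than one. -/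
lemma int_eq_zero {a : ℤ} (h : (a : ℝ) ^ 2 < 1) : a = 0 := by
  have h1 : a ^ 2 < 1 := by exact_mod_cast h
  have : -1 < a ∧ a < 1 := by constructor <;> nlinarith
  omega

/-- If some point has small error then there is a best approximation point. -/
lemma exists_best {Θ : Fin 2 → ℝ} {r : ℝ} (hr : r ≤ 1 / 4) {z : Pt} (hz : z.1 ≠ 0)
    (hN : NN Θ z < r) : ∃ w : Pt, BestPt Θ w ∧ w.1 ≤ |z.1| ∧ NN Θ w < r := by
  classical
  have hex : ∃ q : ℕ, 0 < q ∧ ∃ a b : ℤ, NN Θ ((q : ℤ), a, b) < r := by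
    rcases lt_or_gt_of_ne hz with h | h
    · refine ⟨(-z.1).toNat, by omega, -z.2.1, -z.2.2, ?_⟩
      rw [Int.toNat_of_nonneg (by omega)]
      have := NN_neg Θ z
      rw [show ((-z.1, -z.2.1, -z.2.2) : Pt) = -z from rfl, this]
      exact hN
    · refine ⟨z.1.toNat, by omega, z.2.1, z.2.2, ?_⟩
      rw [Int.toNat_of_nonneg (by omega)]
      exact hN
  obtain ⟨hq0, a, b, hab⟩ := Nat.find_spec hex
  have hmin : ∀ w : Pt, w.1 ≠ 0 → NN Θ w < r → ((Nat.find hex : ℕ) : ℤ) ≤ |w.1| := by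
    intro w hw hwN
    have : Nat.find hex ≤ w.1.natAbs := by
      apply Nat.find_min' hex
      refine ⟨by omega, ?_⟩
      rcases lt_or_gt_of_ne hw with h | h
      · refine ⟨-w.2.1, -w.2.2, ?_⟩
        rw [show ((w.1.natAbs : ℕ) : ℤ) = -w.1 by omega,
          show ((-w.1, -w.2.1, -w.2.2) : Pt) = -w from rfl, NN_neg]
        exact hwN
      · refine ⟨w.2.1, w.2.2, ?_⟩
        rw [show ((w.1.natAbs : ℕ) : ℤ) = w.1 by omega]
        exact hwN
    rw [Int.abs_eq_natAbs]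
    exact_mod_cast this
  set q : ℤ := ((Nat.find hex : ℕ) : ℤ) with hq
  have hq0' : 0 < q := by rw [hq]; exact_mod_cast hq0
  -- uniqueness for the same first coordinate
  have huniq : ∀ w : Pt, w.1 = q → NN Θ w ≤ NN Θ (q, a, b) → w = (q, a, b) := by
    intro w hw hwN
    obtain ⟨w1, w2, w3⟩ := w
    simp only at hw
    subst hw
    rw [NN_apply, NN_apply] at hwN
    rw [NN_apply] at hab
    simp only at hwN hab
    have h1 : ((w2 - a : ℤ) : ℝ) ^ 2 < 1 := by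
      push_cast
      nlinarith [sq_nonneg ((q : ℝ) * Θ 0 - w2 + ((q : ℝ) * Θ 0 - a)),
        sq_nonneg ((q : ℝ) * Θ 1 - w3 + ((q : ℝ) * Θ 1 - b)), sq_nonneg ((w3 : ℝ) - b)]
    have h2 : ((w3 - b : ℤ) : ℝ) ^ 2 < 1 := by
      push_cast
      nlinarith [sq_nonneg ((q : ℝ) * Θ 0 - w2 + ((q : ℝ) * Θ 0 - a)),
        sq_nonneg ((q : ℝ) * Θ 1 - w3 + ((q : ℝ) * Θ 1 - b)), sq_nonneg ((w2 : ℝ) - a)]
    have h3 := int_eq_zero h1
    have h4 := int_eq_zero h2
    ext <;> simp <;> omega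
  refine ⟨(q, a, b), ⟨hq0', fun w hw hwN => ?_⟩, hmin z hz hN, hab⟩
  by_cases hw0 : w.1 = 0
  · left
    obtain ⟨w1, w2, w3⟩ := w
    simp only at hw0
    subst hw0
    have h5 : NN Θ ((0, w2, w3) : Pt) < 1 / 4 := by linarith
    rw [NN_apply] at h5
    simp at h5
    have h1 : (w2 : ℝ) ^ 2 < 1 := by nlinarith [sq_nonneg (w3 : ℝ)]
    have h2 : (w3 : ℝ) ^ 2 < 1 := by nlinarith [sq_nonneg (w2 : ℝ)]
    rw [int_eq_zero h1, int_eq_zero h2]
    rfl
  · right
    have h6 := hmin w hw0 (by linarith)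
    have h7 : |w.1| = q := le_antisymm hw h6
    rcases abs_eq hq0'.le |>.mp h7 with h8 | h8
    · left; exact huniq w h8 hwN
    · right
      have h9 := huniq (-w) (by simp; omega) (by rw [NN_neg]; exact hwN)
      rw [← h9, neg_neg]

/-- Dirichlet's theorem. -/
lemma dirichlet (Θ : Fin 2 → ℝ) {r : ℝ} (hr : 0 < r) : ∃ z : Pt, z.1 ≠ 0 ∧ NN Θ z < r := by
  obtain ⟨n, hn⟩ := exists_nat_gt (2 / r)
  have hn0 : 0 < n := by
    have : (0 : ℝ) < n := lt_trans (by positivity) hn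
    exact_mod_cast this
  have hnr : (0 : ℝ) < n := by exact_mod_cast hn0
  let F : ℕ → ℕ × ℕ := fun q =>
    (⌊Int.fract ((q : ℝ) * Θ 0) * n⌋₊, ⌊Int.fract ((q : ℝ) * Θ 1) * n⌋₊)
  have hF : ∀ q ∈ Finset.range (n * n + 1), F q ∈ Finset.range n ×ˢ Finset.range n := by
    intro q _
    rw [Finset.mem_product, Finset.mem_range, Finset.mem_range]
    constructor
    · rw [Nat.floor_lt (mul_nonneg (Int.fract_nonneg _) hnr.le)]
      have := Int.fract_lt_one ((q : ℝ) * Θ 0)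
      nlinarith
    · rw [Nat.floor_lt (mul_nonneg (Int.fract_nonneg _) hnr.le)]
      have := Int.fract_lt_one ((q : ℝ) * Θ 1)
      nlinarith
  obtain ⟨i, _, j, _, hij, hFij⟩ := Finset.exists_ne_map_eq_of_card_lt_of_maps_to
    (s := Finset.range (n * n + 1)) (t := Finset.range n ×ˢ Finset.range n)
    (by rw [Finset.card_product]; simp) hF
  have close : ∀ u v : ℝ, 0 ≤ u → 0 ≤ v → ⌊u * n⌋₊ = ⌊v * n⌋₊ → (u - v) ^ 2 * n < 1 := by
    intro u v hu hv h
    have h1 := Nat.floor_le (mul_nonneg hu hnr.le)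
    have h2 := Nat.lt_floor_add_one (u * n)
    have h3 := Nat.floor_le (mul_nonneg hv hnr.le)
    have h4 := Nat.lt_floor_add_one (v * n)
    rw [h] at h1 h2
    have h5 : |(u - v) * n| < 1 := by
      rw [abs_lt]; constructor <;> nlinarith
    have h6 : ((u - v) * n) ^ 2 < 1 := by
      rw [← sq_abs]
      nlinarith [abs_nonneg ((u - v) * n)]
    have h7 : (1 : ℝ) ≤ n := by exact_mod_cast hn0
    calc (u - v) ^ 2 * n ≤ (u - v) ^ 2 * n * n := le_mul_of_one_le_right (by positivity) h7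
      _ = ((u - v) * n) ^ 2 := by ring
      _ < 1 := h6
  have c1 := close _ _ (Int.fract_nonneg _) (Int.fract_nonneg _) (congrArg Prod.fst hFij)
  have c2 := close _ _ (Int.fract_nonneg _) (Int.fract_nonneg _) (congrArg Prod.snd hFij)
  refine ⟨((i : ℤ) - j, ⌊(i : ℝ) * Θ 0⌋ - ⌊(j : ℝ) * Θ 0⌋, ⌊(i : ℝ) * Θ 1⌋ - ⌊(j : ℝ) * Θ 1⌋),
    ?_, ?_⟩
  · simp only [ne_eq, sub_eq_zero]
    exact_mod_cast hij
  · rw [NN_apply]
    have e1 : (((i : ℤ) - j : ℤ) : ℝ) * Θ 0 - ((⌊(i : ℝ) * Θ 0⌋ - ⌊(j : ℝ) * Θ 0⌋ : ℤ) : ℝ)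
        = Int.fract ((i : ℝ) * Θ 0) - Int.fract ((j : ℝ) * Θ 0) := by
      push_cast [Int.fract]; ring
    have e2 : (((i : ℤ) - j : ℤ) : ℝ) * Θ 1 - ((⌊(i : ℝ) * Θ 1⌋ - ⌊(j : ℝ) * Θ 1⌋ : ℤ) : ℝ)
        = Int.fract ((i : ℝ) * Θ 1) - Int.fract ((j : ℝ) * Θ 1) := by
      push_cast [Int.fract]; ring
    simp only
    rw [e1, e2]
    rw [div_lt_iff₀ hr] at hn
    by_contra hcon
    push Not at hcon
    have : r * n ≤ ((Int.fract ((i : ℝ) * Θ 0) - Int.fract ((j : ℝ) * Θ 0)) ^ 2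
        + (Int.fract ((i : ℝ) * Θ 1) - Int.fract ((j : ℝ) * Θ 1)) ^ 2) * n :=
      mul_le_mul_of_nonneg_right hcon hnr.le
    linarith

/-- Points with bounded nonzero first coordinate have errors bounded below. -/
lemma errors_bdd {Θ : Fin 2 → ℝ} (hΘ : Admissible Θ) (K : ℕ) :
    ∃ r : ℝ, 0 < r ∧ ∀ z : Pt, 0 < z.1 → z.1 ≤ K → r ≤ NN Θ z := by
  induction K with
  | zero => exact ⟨1, one_pos, fun z h1 h2 => by simp at h2; omega⟩
  | succ K ih =>
    obtain ⟨r, hr, h⟩ := ih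
    set c : ℝ := ((K + 1 : ℕ) : ℝ) with hc
    set s : ℝ := (c * Θ 0 - round (c * Θ 0)) ^ 2 + (c * Θ 1 - round (c * Θ 1)) ^ 2 with hs
    have hs0 : 0 < s := by
      obtain ⟨i, hi⟩ := hΘ ((K + 1 : ℕ) : ℤ) (by positivity)
        ![round (c * Θ 0), round (c * Θ 1)]
      have hcK : (K : ℝ) + 1 = c := by rw [hc]; push_cast; rfl
      fin_cases i
      · simp [hcK] at hi
        have : c * Θ 0 - round (c * Θ 0) ≠ 0 := sub_ne_zero.mpr hi
        positivity
      · simp [hcK] at hi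
        have : c * Θ 1 - round (c * Θ 1) ≠ 0 := sub_ne_zero.mpr hi
        positivity
    refine ⟨min r s, lt_min hr hs0, fun z h1 h2 => ?_⟩
    by_cases hz : z.1 ≤ K
    · exact (min_le_left _ _).trans (h z h1 hz)
    · have hz' : z.1 = ((K + 1 : ℕ) : ℤ) := by push_cast at h2 ⊢; omega
      refine (min_le_right _ _).trans ?_
      rw [NN_apply, hz', hs]
      have hcc : (((K + 1 : ℕ) : ℤ) : ℝ) = c := by rw [hc]; push_cast; rfl
      rw [hcc]
      have a := round_le (c * Θ 0) z.2.1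
      have b := round_le (c * Θ 1) z.2.2
      exact add_le_add (sq_le_sq.mpr a) (sq_le_sq.mpr b)

lemma infinite {Θ : Fin 2 → ℝ} (hΘ : Admissible Θ) :
    {m : ℕ | IsBestDenominator Θ m}.Infinite := by
  rw [Set.infinite_iff_exists_gt]
  intro K
  obtain ⟨r, hr, h⟩ := errors_bdd hΘ K
  obtain ⟨z, hz, hN⟩ := dirichlet Θ (lt_min hr (by norm_num : (0 : ℝ) < 1 / 4))
  obtain ⟨w, hw, _, hwN⟩ := exists_best (min_le_right _ _) hz hN
  refine ⟨w.1.toNat, ?_, ?_⟩
  · show IsBestDenominator Θ w.1.toNat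
    rw [bestDen_iff]
    exact ⟨w, hw, by rw [Int.toNat_of_nonneg hw.1.le]⟩
  · by_contra hcon
    have h1 := h w hw.1 (by omega)
    have := hwN.trans_le (min_le_left _ _)
    linarith

/-- A choice of the best approximation points. -/
lemma exists_seq {Θ : Fin 2 → ℝ} (hΘ : Admissible Θ) :
    ∃ z : ℕ → Pt, ∀ k, BestPt Θ (z k) ∧ (z k).1 = Nat.nth (IsBestDenominator Θ) k := by
  have h : ∀ k, ∃ z : Pt, BestPt Θ z ∧ z.1 = Nat.nth (IsBestDenominator Θ) k := by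
    intro k
    exact (bestDen_iff Θ _).mp (Nat.nth_mem_of_infinite (infinite hΘ) k)
  choose z hz using h
  exact ⟨z, hz⟩

end Pool.Agent.Work.MP_7453a1_nt_helper12
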