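import Mathlib
import Pool.Agent.Work.MP_7453a1_nt.Defs
import Pool.Agent.Work.MP_7453a1_nt.Final
import Pool.Agent.Work.MP_7453a1_nt_helper12.Seq

set_option autoImplicit false

namespace Pool.Agent.Work.MP_7453a1_nt_helper12

open Pool.Agent.Work.MP_7453a1_nt Filter Topology
open scoped ENNReal

section

variable {Θ : Fin 2 → ℝ} {z : ℕ → Pt}

lemma strictMono_z (hΘ : Admissible Θ)
    (hz : ∀ k, BestPt Θ (z k) ∧ (z k).1 = Nat.nth (IsBestDenominator Θ) k) {k l : ℕ}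
    (h : k < l) : (z k).1 < (z l).1 := by
  rw [(hz k).2, (hz l).2]
  exact_mod_cast Nat.nth_strictMono (infinite hΘ) h

lemma NN_lt (hΘ : Admissible Θ)
    (hz : ∀ k, BestPt Θ (z k) ∧ (z k).1 = Nat.nth (IsBestDenominator Θ) k) {k l : ℕ}
    (h : k < l) : NN Θ (z l) < NN Θ (z k) := by
  by_contra hcon
  push Not at hcon
  have h1 := strictMono_z hΘ hz h
  have h2 := (hz k).1.1
  rcases (hz l).1.2 (z k) (by rw [abs_of_pos h2]; exact h1.le) hcon with h3 | h3 | h3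
  · rw [h3] at h2; simp at h2
  · rw [h3] at h1; exact lt_irrefl _ h1
  · rw [h3] at h2
    have := (hz l).1.1
    simp at h2
    omega

/-- Below the `k`-th denominator. -/
lemma below (hz : ∀ k, BestPt Θ (z k) ∧ (z k).1 = Nat.nth (IsBestDenominator Θ) k) (k : ℕ)
    (w : Pt) (hw : w ≠ 0) (hx : |w.1| < (z k).1) : NN Θ (z k) < NN Θ w := by
  by_contra hcon
  push Not at hcon
  have h2 := (hz k).1.1
  rcases (hz k).1.2 w hx.le hcon with h3 | h3 | h3
  · exact hw h3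
  · rw [h3, abs_of_pos h2] at hx; exact lt_irrefl _ hx
  · rw [h3] at hx
    simp [abs_of_pos h2] at hx

/-- Between consecutive denominators. -/
lemma between (hΘ : Admissible Θ)
    (hz : ∀ k, BestPt Θ (z k) ∧ (z k).1 = Nat.nth (IsBestDenominator Θ) k) (k : ℕ)
    (hk : NN Θ (z k) ≤ 1 / 4) (w : Pt) (hw : w ≠ 0) (hx : |w.1| < (z (k + 1)).1) :
    NN Θ (z k) ≤ NN Θ w := by
  classical
  by_contra hcon
  push Not at hcon
  have hw1 : w.1 ≠ 0 := by
    intro h0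
    exact absurd (below hz k w hw (by rw [h0, abs_zero]; exact (hz k).1.1)) (not_lt.mpr hcon.le)
  obtain ⟨u, hu, hu1, hu2⟩ := exists_best hk hw1 hcon
  -- `u` lies strictly between
  have h1 : (z k).1 < u.1 := by
    by_contra h
    push Not at h
    rcases lt_or_eq_of_le h with h | h
    · have := below hz k u (by rintro rfl; exact lt_irrefl _ hu.1) (by rwa [abs_of_pos hu.1])
      linarith
    · rcases (hz k).1.2 u (by rw [abs_of_pos hu.1]; exact h.le) hu2.le with h3 | h3 | h3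
      · rw [h3] at hu; exact lt_irrefl _ hu.1
      · rw [h3] at hu2; exact lt_irrefl _ hu2
      · rw [h3, NN_neg] at hu2; exact lt_irrefl _ hu2
  have h2 : u.1 < (z (k + 1)).1 := lt_of_le_of_lt hu1 hx
  have h3 : IsBestDenominator Θ u.1.toNat := by
    rw [bestDen_iff]
    exact ⟨u, hu, by rw [Int.toNat_of_nonneg hu.1.le]⟩
  obtain ⟨n, hn⟩ : ∃ n, Nat.nth (IsBestDenominator Θ) n = u.1.toNat :=
    ⟨_, Nat.nth_count h3⟩
  have h4 : ((Nat.nth (IsBestDenominator Θ) n : ℕ) : ℤ) = u.1 := by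
    rw [hn, Int.toNat_of_nonneg hu.1.le]
  rw [← (hz n).2] at h4
  have h5 : k < n := by
    by_contra h
    push Not at h
    rcases lt_or_eq_of_le h with h | h
    · have := strictMono_z hΘ hz h; omega
    · rw [h] at h4; omega
  have h6 : n < k + 1 := by
    by_contra h
    push Not at h
    rcases lt_or_eq_of_le h with h | h
    · have := strictMono_z hΘ hz h; omega
    · rw [← h] at h4; omega
  omega

/-- From some point on the errors are at most `1/2`. -/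
lemma eventually_small (hΘ : Admissible Θ)
    (hz : ∀ k, BestPt Θ (z k) ∧ (z k).1 = Nat.nth (IsBestDenominator Θ) k) :
    ∃ k₀, ∀ k, k₀ ≤ k → NN Θ (z k) ≤ 1 / 4 := by
  classical
  obtain ⟨w, hw, hwN⟩ := dirichlet Θ (by norm_num : (0 : ℝ) < 1 / 4)
  refine ⟨w.1.natAbs, fun k hk => ?_⟩
  by_contra hcon
  push Not at hcon
  have h1 : ∀ j : ℕ, (j : ℤ) < (z j).1 := by
    intro j
    induction j with
    | zero => exact_mod_cast (hz 0).1.1
    | succ j ih =>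
      have := strictMono_z hΘ hz (show j < j + 1 by omega)
      push_cast
      omega
  have h2 := h1 k
  have h3 := below hz k w (by rintro rfl; simp at hw) (by rw [Int.abs_eq_natAbs]; omega)
  linarith

/-- The six-term inequality for the points. -/
lemma six_z (hΘ : Admissible Θ)
    (hz : ∀ k, BestPt Θ (z k) ∧ (z k).1 = Nat.nth (IsBestDenominator Θ) k) (k : ℕ)
    (hk : ∀ j, k ≤ j → NN Θ (z j) ≤ 1 / 4) :
    (z (k + 3)).1 + (z (k + 2)).1 ≤ (z (k + 5)).1 ∨ (z (k + 4)).1 + (z k).1 ≤ (z (k + 5)).1 := by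
  have := six (x := xh) (f := fh Θ) (g := gh Θ) (z0 := z k) (z1 := z (k + 1)) (z2 := z (k + 2))
    (z3 := z (k + 3)) (z4 := z (k + 4)) (z5 := z (k + 5)) (hz k).1.1
    (strictMono_z hΘ hz (by omega)) (strictMono_z hΘ hz (by omega))
    (strictMono_z hΘ hz (by omega)) (strictMono_z hΘ hz (by omega))
    (strictMono_z hΘ hz (by omega)) (NN_lt hΘ hz (by omega)) (NN_lt hΘ hz (by omega))
    (NN_lt hΘ hz (by omega)) (NN_lt hΘ hz (by omega)) (NN_lt hΘ hz (by omega))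
    (fun w hw hx => below hz k w hw hx)
    (fun w hw hx => between hΘ hz k (hk _ (by omega)) w hw hx)
    (fun w hw hx => between hΘ hz (k + 1) (hk _ (by omega)) w hw hx)
    (fun w hw hx => between hΘ hz (k + 2) (hk _ (by omega)) w hw hx)
    (fun w hw hx => between hΘ hz (k + 3) (hk _ (by omega)) w hw hx)
    (fun w hw hx => between hΘ hz (k + 4) (hk _ (by omega)) w hw hx)
  simpa using this

end

/-- The six-term inequality for the denominators, for all large indices. -/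
theorem six_M {Θ : Fin 2 → ℝ} (hΘ : Admissible Θ) : ∃ ν₀ : ℕ, 1 ≤ ν₀ ∧ ∀ ν, ν₀ ≤ ν →
    M Θ (ν + 3) + M Θ (ν + 2) ≤ M Θ (ν + 5) ∨ M Θ (ν + 4) + M Θ ν ≤ M Θ (ν + 5) := by
  obtain ⟨z, hz⟩ := exists_seq hΘ
  obtain ⟨k₀, hk₀⟩ := eventually_small hΘ hz
  refine ⟨k₀ + 1, by omega, fun ν hν => ?_⟩
  obtain ⟨k, rfl⟩ : ∃ k, ν = k + 1 := ⟨ν - 1, by omega⟩
  have h := six_z hΘ hz k (fun j hj => hk₀ j (by omega))
  simp only [M, Nat.add_sub_cancel, show ∀ i, k + 1 + i - 1 = k + i by intro i; omega]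
  rw [(hz _).2, (hz _).2, (hz _).2, (hz _).2, (hz _).2] at h
  omega

lemma M_pos {Θ : Fin 2 → ℝ} (hΘ : Admissible Θ) (ν : ℕ) : 0 < M Θ ν := by
  have := Nat.nth_mem_of_infinite (infinite hΘ) (ν - 1)
  obtain ⟨z, hz, h⟩ := (bestDen_iff Θ _).mp this
  have h1 := hz.1
  rw [h] at h1
  exact_mod_cast h1

lemma M_mono {Θ : Fin 2 → ℝ} (hΘ : Admissible Θ) {a b : ℕ} (h : a ≤ b) : M Θ a ≤ M Θ b :=
  Nat.nth_monotone (infinite hΘ) (by omega)

/-- Exponential growth. -/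
theorem growth {Θ : Fin 2 → ℝ} (hΘ : Admissible Θ) {ρ : ℝ} (hρ : ρ ^ 3 = ρ + 1) :
    ∃ c : ℝ, 0 < c ∧ ∀ᶠ ν in atTop, c * ρ ^ ν ≤ M Θ ν := by
  obtain ⟨ν₀, h1, h⟩ := six_M hΘ
  have hρ1 : 1 < ρ := by linarith [(rho_bounds hρ).1]
  have hρ0 : 0 < ρ := by linarith
  refine ⟨M Θ ν₀ / ρ ^ (ν₀ + 4), div_pos (by exact_mod_cast M_pos hΘ ν₀) (by positivity), ?_⟩
  set c : ℝ := M Θ ν₀ / ρ ^ (ν₀ + 4) with hc
  have hc0 : 0 < c := div_pos (by exact_mod_cast M_pos hΘ ν₀) (by positivity)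
  have base : ∀ i, i ≤ 4 → c * ρ ^ (ν₀ + i) ≤ M Θ (ν₀ + i) := by
    intro i hi
    calc c * ρ ^ (ν₀ + i) ≤ c * ρ ^ (ν₀ + 4) :=
          mul_le_mul_of_nonneg_left (pow_le_pow_right₀ hρ1.le (by omega)) hc0.le
      _ = M Θ ν₀ := by rw [hc, div_mul_cancel₀ _ (by positivity)]
      _ ≤ M Θ (ν₀ + i) := by exact_mod_cast M_mono hΘ (by omega)
  have key : ∀ j, c * ρ ^ (ν₀ + j) ≤ M Θ (ν₀ + j) := by
    intro j
    induction j using Nat.strong_induction_on with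
    | _ j ih =>
      by_cases hj : j ≤ 4
      · exact base j hj
      · obtain ⟨i, rfl⟩ : ∃ i, j = i + 5 := ⟨j - 5, by omega⟩
        have i0 := ih i (by omega)
        have i2 := ih (i + 2) (by omega)
        have i3 := ih (i + 3) (by omega)
        have i4 := ih (i + 4) (by omega)
        have h5 : ρ ^ (ν₀ + (i + 5)) = ρ ^ (ν₀ + (i + 3)) + ρ ^ (ν₀ + (i + 2)) := by
          have : ρ ^ (ν₀ + (i + 5)) = ρ ^ (ν₀ + (i + 2)) * ρ ^ 3 := by ring
          rw [this, hρ]; ring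
        have h6 : ρ ^ (ν₀ + (i + 5)) = ρ ^ (ν₀ + (i + 4)) + ρ ^ (ν₀ + i) := by
          have e : ρ ^ 5 = ρ ^ 4 + 1 := by
            linear_combination (ρ ^ 2 - ρ + 1) * hρ
          have : ρ ^ (ν₀ + (i + 5)) = ρ ^ (ν₀ + i) * ρ ^ 5 := by ring
          rw [this, e]; ring
        rcases h (ν₀ + i) (by omega) with h7 | h7
        · have h8 : (M Θ (ν₀ + (i + 3)) : ℝ) + M Θ (ν₀ + (i + 2)) ≤ M Θ (ν₀ + (i + 5)) := by
            exact_mod_cast h7
          rw [h5, mul_add]; linarith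
        · have h8 : (M Θ (ν₀ + (i + 4)) : ℝ) + M Θ (ν₀ + i) ≤ M Θ (ν₀ + (i + 5)) := by
            exact_mod_cast h7
          rw [h6, mul_add]; linarith
  filter_upwards [eventually_ge_atTop ν₀] with ν hν
  obtain ⟨j, rfl⟩ : ∃ j, ν = ν₀ + j := ⟨ν - ν₀, by omega⟩
  exact key j

/-- The lower bound for `G`. -/
theorem le_G {Θ : Fin 2 → ℝ} (hΘ : Admissible Θ) {ρ : ℝ} (hρ : ρ ^ 3 = ρ + 1) :
    ENNReal.ofReal ρ ≤ G Θ := by
  obtain ⟨c, hc, h⟩ := growth hΘ hρ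
  have hρ0 : 0 < ρ := by linarith [(rho_bounds hρ).1]
  have hlim : Tendsto (fun ν : ℕ => ENNReal.ofReal (c ^ (1 / (ν : ℝ)) * ρ)) atTop
      (𝓝 (ENNReal.ofReal ρ)) := by
    apply ENNReal.tendsto_ofReal
    have h1 : Tendsto (fun ν : ℕ => c ^ (1 / (ν : ℝ))) atTop (𝓝 (c ^ (0 : ℝ))) := by
      apply Tendsto.rpow tendsto_const_nhds tendsto_one_div_atTop_nhds_zero_nat
      left
      positivity
    rw [Real.rpow_zero] at h1
    simpa using h1.mul_const ρ
  rw [← hlim.liminf_eq]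
  unfold G
  refine liminf_le_liminf ?_
  filter_upwards [eventually_ge_atTop 1, h] with ν hν hM
  apply ENNReal.ofReal_le_ofReal
  have hν0 : (0 : ℝ) < ν := by exact_mod_cast hν
  calc c ^ (1 / (ν : ℝ)) * ρ = (c * ρ ^ ν) ^ (1 / (ν : ℝ)) := by
        rw [Real.mul_rpow (by positivity) (by positivity)]
        congr 1
        rw [one_div, Real.pow_rpow_inv_natCast hρ0.le (by omega)]
    _ ≤ (M Θ ν : ℝ) ^ (1 / (ν : ℝ)) := Real.rpow_le_rpow (by positivity) hM (by positivity)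

/-- **The value of `g_{1,2;2}`.** -/
theorem exact {ρ : ℝ} (hρ : ρ ^ 3 = ρ + 1) : g 2 = ENNReal.ofReal ρ :=
  le_antisymm (main 2 le_rfl ρ hρ).2 (le_iInf₂ fun _ hΘ => le_G hΘ hρ)

end Pool.Agent.Work.MP_7453a1_nt_helper12
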