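import Pool.Agent.Work.MP_7453a1_nt.Defs
import Pool.Agent.Work.MP_7453a1_nt_helper12.Main

set_option autoImplicit false

namespace Pool.Agent.Work.MP_7453a1_nt_helper12.EuclidExact

open Pool.Agent.Work.MP_7453a1_nt

/-- `m = 1`, `n = 2`, Euclidean norm. If `ρ = 1.3247…` is the real root of `ρ³ = ρ + 1`, then
`g_{1,2;2} = ρ`, and the infimum is attained. Moreover for every `Θ` satisfying (∗) there are
infinitely many best approximation denominators `M₁ < M₂ < ⋯`, and for all large `ν` at least one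
of the inequalities `M_{ν+5} ≥ M_{ν+3} + M_{ν+2}`, `M_{ν+5} ≥ M_{ν+4} + M_ν` holds. -/
theorem result (ρ : ℝ) (hρ : ρ ^ 3 = ρ + 1) :
    g 2 = ENNReal.ofReal ρ ∧
    (∃ Θ : Fin 2 → ℝ, Admissible Θ ∧ G Θ = ENNReal.ofReal ρ) ∧
    (∀ Θ : Fin 2 → ℝ, Admissible Θ → {M : ℕ | IsBestDenominator Θ M}.Infinite ∧
      ∃ ν₀ : ℕ, 1 ≤ ν₀ ∧ ∀ ν, ν₀ ≤ ν →
        M Θ (ν + 3) + M Θ (ν + 2) ≤ M Θ (ν + 5) ∨ M Θ (ν + 4) + M Θ ν ≤ M Θ (ν + 5)) := by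
  refine ⟨Pool.Agent.Work.MP_7453a1_nt_helper12.exact hρ, ?_, fun Θ hΘ =>
    ⟨Pool.Agent.Work.MP_7453a1_nt_helper12.infinite hΘ,
      Pool.Agent.Work.MP_7453a1_nt_helper12.six_M hΘ⟩⟩
  obtain ⟨⟨Θ, hΘ, _, h⟩, _⟩ := main 2 le_rfl ρ hρ
  exact ⟨Θ, hΘ, le_antisymm h (Pool.Agent.Work.MP_7453a1_nt_helper12.le_G hΘ hρ)⟩

end Pool.Agent.Work.MP_7453a1_nt_helper12.EuclidExact
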