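import Mathlib
import Pool.Agent.Work.MP_7453a1_nt_helper12.Six

set_option autoImplicit false

namespace Pool.Agent.Work.MP_7453a1_nt_helper12

namespace R

/-- All nonzero points with `|x| < m` have error at least `√r`. -/
def Bd (x f g : Pt →+ ℝ) (m : ℝ) (r : ℝ) : Prop :=
  ∀ z : Pt, z ≠ 0 → |x z| < m → r ≤ N f g z

variable {x f g : Pt →+ ℝ}

lemma Bd.half {m r : ℝ} (h : Bd x f g m r) {z : Pt} (hz : z ≠ 0) (he : Even z)
    (hx : |x z| < 2 * m) : 4 * r ≤ N f g z := by
  obtain ⟨u, rfl⟩ := he
  have hu : u ≠ 0 := by rintro rfl; exact hz (by simp)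
  have hxu : |x u| < m := by
    rw [map_add, ← two_mul, abs_mul, abs_two] at hx
    linarith
  rw [N_two]
  linarith [h u hu hxu]

lemma Bd.half' {m r : ℝ} (h : Bd x f g m r) {z : Pt} (hz : x z ≠ 0) (he : Even z)
    (h1 : x z < 2 * m) (h2 : -(2 * m) < x z) : 4 * r ≤ N f g z :=
  h.half (by rintro rfl; exact hz (map_zero x)) he (abs_lt.mpr ⟨h2, h1⟩)

/-- Two points with small difference are different modulo `2`. -/
lemma noteq {m : ℝ} {u w : Pt} (h : Bd x f g m (N f g u)) (hN : N f g w < N f g u)
    (h1 : x u < x w) (h2 : x w - x u < 2 * m) : ¬ Even (u + w) := by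
  intro he
  have h3 : Even (w - u) := ev (-u) he (by abel)
  have h4 := h.half' (z := w - u) (by rw [map_sub]; linarith) h3 (by rw [map_sub]; linarith)
    (by rw [map_sub]; linarith)
  have h5 := N_para (f := f) (g := g) w u
  have h6 := N_nonneg (f := f) (g := g) (w + u)
  linarith

/-- Not even. -/
lemma noteven {m r : ℝ} {u : Pt} (h : Bd x f g m r) (hN : N f g u ≤ r) (hr : 0 < r)
    (h1 : 0 < x u) (h2 : x u < 2 * m) : ¬ Even u := by
  intro he
  have h4 := h.half' (z := u) (by linarith) he (by linarith) (by linarith)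
  linarith

/-- No three points sum to zero modulo `2`. -/
lemma notriple {m1 m2 m3 : ℝ} {r1 r2 r3 : ℝ} {a b c : Pt} (h1 : Bd x f g m1 r1)
    (h2 : Bd x f g m2 r2) (h3 : Bd x f g m3 r3)
    (hN : N f g a + N f g b + N f g c < r1 + r2 + r3)
    (x10 : -x a + x b + x c ≠ 0) (x11 : -x a + x b + x c < 2 * m1)
    (x12 : -(2 * m1) < -x a + x b + x c)
    (x20 : x a - x b + x c ≠ 0) (x21 : x a - x b + x c < 2 * m2)
    (x22 : -(2 * m2) < x a - x b + x c)
    (x30 : x a + x b - x c ≠ 0) (x31 : x a + x b - x c < 2 * m3)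
    (x32 : -(2 * m3) < x a + x b - x c) : ¬ Even (a + b + c) := by
  intro he
  have e1 : Even (-a + b + c) := ev (-a) he (by abel)
  have e2 : Even (a - b + c) := ev (-b) he (by abel)
  have e3 : Even (a + b - c) := ev (-c) he (by abel)
  have b1 := h1.half' (z := -a + b + c) (by simpa using x10) e1 (by simpa using x11)
    (by simpa using x12)
  have b2 := h2.half' (z := a - b + c) (by simpa using x20) e2 (by simpa using x21)
    (by simpa using x22)
  have b3 := h3.half' (z := a + b - c) (by simpa using x30) e3 (by simpa using x31)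
    (by simpa using x32)
  have h4 := N_four (f := f) (g := g) a b c
  have h5 := N_nonneg (f := f) (g := g) (a + b + c)
  linarith

/-- First half: if `M₅ < M₂ + M₃` then `z₂, z₃, z₄` are independent modulo `2` and
`z₅ = z₃ + z₄ - z₂`. -/
lemma step1 {z2 z3 z4 z5 : Pt} (h2 : 0 < x z2) (h23 : x z2 < x z3) (h34 : x z3 < x z4)
    (h45 : x z4 < x z5) (n23 : N f g z3 < N f g z2) (n34 : N f g z4 < N f g z3)
    (n45 : N f g z5 < N f g z4) (P2 : Bd x f g (x z3) (N f g z2))
    (P3 : Bd x f g (x z4) (N f g z3)) (P4 : Bd x f g (x z5) (N f g z4))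
    (h5 : x z5 < x z2 + x z3) :
    (¬ Even z2 ∧ ¬ Even z3 ∧ ¬ Even z4 ∧ ¬ Even (z2 + z3) ∧ ¬ Even (z2 + z4) ∧ ¬ Even (z3 + z4) ∧
      ¬ Even (z2 + z3 + z4)) ∧ z5 = z3 + z4 - z2 := by
  have n5 := N_nonneg (f := f) (g := g) z5
  have e2 : ¬ Even z2 := noteven P2 le_rfl (by linarith) h2 (by linarith)
  have e3 : ¬ Even z3 := noteven P3 le_rfl (by linarith) (by linarith) (by linarith)
  have e4 : ¬ Even z4 := noteven P4 le_rfl (by linarith) (by linarith) (by linarith)
  have e5 : ¬ Even z5 := noteven P4 n45.le (by linarith) (by linarith) (by linarith)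
  have e23 : ¬ Even (z2 + z3) := noteq P2 n23 h23 (by linarith)
  have e24 : ¬ Even (z2 + z4) := noteq P2 (by linarith) (by linarith) (by linarith)
  have e25 : ¬ Even (z2 + z5) := noteq P2 (by linarith) (by linarith) (by linarith)
  have e34 : ¬ Even (z3 + z4) := noteq P3 n34 h34 (by linarith)
  have e35 : ¬ Even (z3 + z5) := noteq P3 (by linarith) (by linarith) (by linarith)
  have e45 : ¬ Even (z4 + z5) := noteq P4 n45 h45 (by linarith)
  have t234 : ¬ Even (z2 + z3 + z4) := by
    apply notriple P2 P2 P2 <;> linarith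
  have t235 : ¬ Even (z2 + z3 + z5) := by
    apply notriple P2 P2 P2 <;> linarith
  have t245 : ¬ Even (z2 + z4 + z5) := by
    apply notriple P3 P2 P2 <;> linarith
  have t345 : ¬ Even (z3 + z4 + z5) := by
    apply notriple P3 P2 P2 <;> linarith
  refine ⟨⟨e2, e3, e4, e23, e24, e34, t234⟩, ?_⟩
  have hev : Even (z5 + (z2 + z3 + z4)) := by
    rcases classes e2 e3 e4 e23 e24 e34 t234 z5 with h | h | h | h | h | h | h | h
    · exact absurd h e5
    · exact absurd (by rwa [add_comm] at h) e25
    · exact absurd (by rwa [add_comm] at h) e35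
    · exact absurd (by rwa [add_comm] at h) e45
    · exact absurd (by rwa [add_comm] at h) t235
    · exact absurd (by rwa [add_comm] at h) t245
    · exact absurd (by rwa [add_comm] at h) t345
    · exact h
  obtain ⟨q, hq⟩ : Even (z2 + z3 + z4 - z5) := ev (-z5) hev (by abel)
  by_contra hne
  have hqz : q - z2 ≠ 0 := by
    intro h0
    apply hne
    have h1 : q = z2 := by rwa [sub_eq_zero] at h0
    rw [h1] at hq
    calc z5 = z2 + z3 + z4 - (z2 + z3 + z4 - z5) := by abel
      _ = z2 + z3 + z4 - (z2 + z2) := by rw [hq]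
      _ = z3 + z4 - z2 := by abel
  have hxq : x z2 + x z3 + x z4 - x z5 = 2 * x q := by
    have := congrArg x hq
    simp only [map_add, map_sub] at this
    linarith
  have hfq : f z2 + f z3 + f z4 - f z5 = 2 * f q := by
    have := congrArg f hq
    simp only [map_add, map_sub] at this
    linarith
  have hgq : g z2 + g z3 + g z4 - g z5 = 2 * g q := by
    have := congrArg g hq
    simp only [map_add, map_sub] at this
    linarith
  have ne_of : ∀ z : Pt, x z ≠ 0 → z ≠ 0 := by
    rintro z hz rfl
    exact hz (map_zero x)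
  have bq := P2 q (ne_of _ (by linarith)) (abs_lt.mpr ⟨by linarith, by linarith⟩)
  have bq2 := P2 (q - z2) hqz (abs_lt.mpr ⟨by rw [map_sub]; linarith, by rw [map_sub]; linarith⟩)
  have bq3 := P2 (q - z3) (ne_of _ (by rw [map_sub]; linarith))
    (abs_lt.mpr ⟨by rw [map_sub]; linarith, by rw [map_sub]; linarith⟩)
  have bq4 := P2 (q - z4) (ne_of _ (by rw [map_sub]; linarith))
    (abs_lt.mpr ⟨by rw [map_sub]; linarith, by rw [map_sub]; linarith⟩)
  have b23 := P2 (z2 - z3) (ne_of _ (by rw [map_sub]; linarith))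
    (abs_lt.mpr ⟨by rw [map_sub]; linarith, by rw [map_sub]; linarith⟩)
  have b24 := P2 (z2 - z4) (ne_of _ (by rw [map_sub]; linarith))
    (abs_lt.mpr ⟨by rw [map_sub]; linarith, by rw [map_sub]; linarith⟩)
  have b34 := P2 (z3 - z4) (ne_of _ (by rw [map_sub]; linarith))
    (abs_lt.mpr ⟨by rw [map_sub]; linarith, by rw [map_sub]; linarith⟩)
  have h5f : f z5 = f z2 + f z3 + f z4 - 2 * f q := by linarith
  have h5g : g z5 = g z2 + g z3 + g z4 - 2 * g q := by linarith
  have hpos : 0 < N f g z2 := by linarith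
  have m2 : N f g z5 < N f g z2 := by linarith
  have m3 : N f g z5 < N f g z3 := by linarith
  have m4 : N f g z5 < N f g z4 := n45
  have l3 : N f g z3 ≤ N f g z2 := n23.le
  have l4 : N f g z4 ≤ N f g z2 := by linarith
  generalize hR : N f g z2 = R2 at *
  simp only [N, map_sub] at *
  rw [h5f, h5g] at m2 m3 m4
  exact geom' (R2 := R2) (a1 := f z2) (a2 := g z2) (b1 := f z3) (b2 := g z3) (c1 := f z4)
    (c2 := g z4) (q1 := f q) (q2 := g q) hpos bq hR.le l3 l4 b23 b34 b24 bq2 bq3 bq4
    (by rw [hR]; exact m2) m3 m4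

/-- The class `v + w` modulo `2` is impossible. -/
lemma class_vw {E v w : Pt} {m1 m2 m3 m4 : ℝ} {R2 : ℝ} (hR : 0 < R2) (htR : R2 < N f g E)
    (hV : N f g E < N f g v) (hW : R2 ≤ N f g w) (hVW : N f g v + N f g w < 4 * R2)
    (hg1 : 2 * (f v * f w + g v * g w) < R2) (hg2 : -R2 < 2 * (f v * f w + g v * g w))
    (b1 : Bd x f g m1 (N f g E)) (b2 : Bd x f g m2 (N f g E)) (b3 : Bd x f g m3 (N f g E))
    (b4 : Bd x f g m4 R2)
    (x1 : x E + x v - x w < 2 * m1) (x1' : -(2 * m1) < x E + x v - x w)
    (x2 : x E - x v + x w < 2 * m2) (x2' : -(2 * m2) < x E - x v + x w)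
    (x2'' : x E - x v + x w ≠ 0)
    (x3 : x E - x v - x w < 2 * m3) (x3' : -(2 * m3) < x E - x v - x w)
    (x4 : x E + x v + x w < 2 * m4) (x4' : 0 < x E + x v + x w)
    (he : Even (E + (v + w))) : False := by
  have hvw1 := N_pm (f := f) (g := g) v w
  have hvw2 := N_pm' (f := f) (g := g) v w
  have c1 : 4 * N f g E ≤ N f g (E + (v - w)) := by
    refine b1.half ?_ (ev (-w) he (by abel)) (abs_lt.mpr ⟨by simp; linarith, by simp; linarith⟩)
    intro h0
    have h1 : N f g E = N f g (v - w) := by
      rw [eq_neg_of_add_eq_zero_left h0, N_neg]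
    linarith
  have c2 : 4 * N f g E ≤ N f g (E - (v - w)) :=
    b2.half' (fun h => x2'' (by simp only [map_sub] at h; linarith)) (ev (-v) he (by abel))
      (by simp only [map_sub]; linarith) (by simp only [map_sub]; linarith)
  have c3 : 4 * N f g E ≤ N f g (E - (v + w)) := by
    refine b3.half ?_ (ev (-(v + w)) he (by abel)) (abs_lt.mpr ⟨by simp; linarith, by simp; linarith⟩)
    intro h0
    have h1 : N f g E = N f g (v + w) := by
      rw [sub_eq_zero.mp h0]
    linarith
  have c4 : 4 * R2 ≤ N f g (E + (v + w)) :=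
    b4.half' (by simp only [map_add]; linarith) he
      (by simp only [map_add]; linarith) (by simp only [map_add]; linarith)
  generalize ht : N f g E = t2 at *
  simp only [N, map_sub, map_add] at *
  exact gram (E1 := f E) (E2 := g E) (v1 := f v) (v2 := g v) (w1 := f w) (w2 := g w) hR htR ht
    hV hW hVW hg1 hg2 c1 c2 c3 c4

/-- Second half: contradiction if moreover `M₅ < M₄ + M₀`. -/
lemma step2 {z0 z1 z2 v w : Pt} (h0 : 0 < x z0) (h01 : x z0 < x z1) (h12 : x z1 < x z2)
    (hv : 0 < x v) (hvw : x v < x w) (hw2 : x w < x z2) (hv0 : x v < x z0)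
    (n01 : N f g z1 < N f g z0) (n12 : N f g z2 < N f g z1) (n23 : N f g (z2 + v) < N f g z2)
    (n34 : N f g (z2 + w) < N f g (z2 + v)) (n45 : N f g (z2 + v + w) < N f g (z2 + w))
    (P0' : ∀ z : Pt, z ≠ 0 → |x z| < x z0 → N f g z0 < N f g z)
    (P0 : Bd x f g (x z1) (N f g z0)) (P1 : Bd x f g (x z2) (N f g z1))
    (P2 : Bd x f g (x (z2 + v)) (N f g z2)) (P3 : Bd x f g (x (z2 + w)) (N f g (z2 + v)))
    (e2 : ¬ Even z2) (ev' : ¬ Even v) (ew : ¬ Even w) (e2v : ¬ Even (z2 + v))
    (e2w : ¬ Even (z2 + w)) (evw : ¬ Even (v + w)) (e2vw : ¬ Even (z2 + v + w)) : False := by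
  have ne_of : ∀ z : Pt, x z ≠ 0 → z ≠ 0 := by
    rintro z hz rfl
    exact hz (map_zero x)
  have n5 := N_nonneg (f := f) (g := g) (z2 + v + w)
  -- basic estimates
  have hV : N f g z0 < N f g v := P0' v (ne_of _ (by linarith)) (abs_lt.mpr ⟨by linarith, by linarith⟩)
  have hW : N f g z1 ≤ N f g w := P1 w (ne_of _ (by linarith)) (abs_lt.mpr ⟨by linarith, by linarith⟩)
  have hsum : N f g v + N f g w ≤
      N f g z2 + N f g (z2 + v) + N f g (z2 + w) + N f g (z2 + v + w) := by
    have h1 : N f g z2 + N f g (z2 + v) + N f g (z2 + w) + N f g (z2 + v + w)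
        = N f g v + N f g w + ((2 * f z2 + f v + f w) ^ 2 + (2 * g z2 + g v + g w) ^ 2) := by
      simp only [N, map_add]; ring
    rw [h1]
    nlinarith [sq_nonneg (2 * f z2 + f v + f w), sq_nonneg (2 * g z2 + g v + g w)]
  have hdot : 2 * (f v * f w + g v * g w)
      = (N f g z2 - N f g (z2 + v)) - (N f g (z2 + w) - N f g (z2 + v + w)) := by
    simp only [N, map_add]; ring
  have n3 := N_nonneg (f := f) (g := g) (z2 + v)
  have hg1 : 2 * (f v * f w + g v * g w) < N f g z2 := by rw [hdot]; linarith
  have hg2 : -N f g z2 < 2 * (f v * f w + g v * g w) := by rw [hdot]; linarith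
  have hR : 0 < N f g z2 := by linarith
  have x2v : x (z2 + v) = x z2 + x v := map_add x _ _
  have x2w : x (z2 + w) = x z2 + x w := map_add x _ _
  -- the class of z1
  have hz1 : z1 = w := by
    rcases classes e2 ev' ew e2v e2w evw e2vw z1 with h | h | h | h | h | h | h | h
    · -- even
      have := P0.half' (by linarith) h (by linarith) (by linarith)
      have := N_nonneg (f := f) (g := g) z1
      linarith
    · -- z2
      exact absurd h (noteq P1 n12 h12 (by linarith))
    · -- v
      have b1 := P0.half' (z := z1 + v) (by rw [map_add]; linarith) h (by rw [map_add]; linarith)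
        (by rw [map_add]; linarith)
      have b2 := P0.half' (z := z1 - v) (by rw [map_sub]; linarith) (ev (-v) h (by abel))
        (by rw [map_sub]; linarith) (by rw [map_sub]; linarith)
      have := N_para (f := f) (g := g) z1 v
      linarith
    · -- w
      by_contra hne
      have b1 := P1.half' (z := z1 + w) (by rw [map_add]; linarith) h (by rw [map_add]; linarith)
        (by rw [map_add]; linarith)
      have b2 := P1.half (z := z1 - w) (sub_ne_zero.mpr hne) (ev (-w) h (by abel))
        (abs_lt.mpr ⟨by rw [map_sub]; linarith, by rw [map_sub]; linarith⟩)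
      have := N_para (f := f) (g := g) z1 w
      linarith
    · -- z2 + v
      exact absurd h (noteq P1 (by linarith) (by linarith) (by linarith))
    · -- z2 + w
      exact absurd h (noteq P1 (by linarith) (by linarith) (by linarith))
    · -- v + w
      exfalso
      exact class_vw hR n12 (by linarith) (by linarith) (by linarith) hg1 hg2 P1 P1 P1 P2
        (by linarith) (by linarith) (by linarith) (by linarith) (by linarith) (by linarith) (by linarith) (by linarith)
        (by linarith) h
    · -- z2 + v + w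
      refine absurd h (noteq P1 (by linarith) ?_ ?_) <;> simp only [map_add] <;> linarith
  subst hz1
  -- the class of z0
  rcases classes e2 ev' ew e2v e2w evw e2vw z0 with h | h | h | h | h | h | h | h
  · -- even
    obtain ⟨u, rfl⟩ := h
    have hu : u ≠ 0 := by rintro rfl; simp at h0
    have h3 := P0' u hu (abs_lt.mpr ⟨by rw [map_add] at *; linarith, by rw [map_add] at *; linarith⟩)
    rw [N_two] at h3
    have := N_nonneg (f := f) (g := g) u
    linarith
  · -- z2
    have b1 := P1.half' (z := z0 + z2) (by rw [map_add]; linarith) h (by rw [map_add]; linarith)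
      (by rw [map_add]; linarith)
    have b2 := P1.half' (z := z0 - z2) (by rw [map_sub]; linarith) (ev (-z2) h (by abel))
      (by rw [map_sub]; linarith) (by rw [map_sub]; linarith)
    have := N_para (f := f) (g := g) z0 z2
    linarith
  · -- v
    have b1 := P0.half' (z := z0 + v) (by rw [map_add]; linarith) h (by rw [map_add]; linarith)
      (by rw [map_add]; linarith)
    have b2 := P0.half' (z := z0 - v) (by rw [map_sub]; linarith) (ev (-v) h (by abel))
      (by rw [map_sub]; linarith) (by rw [map_sub]; linarith)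
    have := N_para (f := f) (g := g) z0 v
    linarith
  · -- w = z1
    exact noteq P0 n01 h01 (by linarith) h
  · -- z2 + v
    have b1 := P2.half' (z := z0 + (z2 + v)) (by simp only [map_add]; linarith) h
      (by simp only [map_add]; linarith) (by simp only [map_add]; linarith)
    have b2 := P1.half' (z := z0 - (z2 + v)) (by simp only [map_add, map_sub]; linarith)
      (ev (-(z2 + v)) h (by abel)) (by simp only [map_add, map_sub]; linarith)
      (by simp only [map_add, map_sub]; linarith)
    have := N_para (f := f) (g := g) z0 (z2 + v)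
    linarith
  · -- z2 + w
    have b1 := P3.half' (z := z0 + (z2 + z1)) (by simp only [map_add]; linarith) h
      (by simp only [map_add]; linarith) (by simp only [map_add]; linarith)
    have b2 := P1.half' (z := z0 - (z2 + z1)) (by simp only [map_add, map_sub]; linarith)
      (ev (-(z2 + z1)) h (by abel)) (by simp only [map_add, map_sub]; linarith)
      (by simp only [map_add, map_sub]; linarith)
    have := N_para (f := f) (g := g) z0 (z2 + z1)
    linarith
  · -- v + w
    exact class_vw hR (by linarith) hV (by linarith) (by linarith) hg1 hg2 P0 P0 P0 P2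
      (by linarith) (by linarith) (by linarith) (by linarith) (by linarith) (by linarith) (by linarith) (by linarith)
      (by linarith) h
  · -- z2 + v + w
    have b1 := P3.half' (z := z0 + (z2 + v + z1)) (by simp only [map_add]; linarith) h
      (by simp only [map_add]; linarith) (by simp only [map_add]; linarith)
    have b2 := P1.half' (z := z0 - (z2 + v + z1)) (by simp only [map_add, map_sub]; linarith)
      (ev (-(z2 + v + z1)) h (by abel)) (by simp only [map_add, map_sub]; linarith)
      (by simp only [map_add, map_sub]; linarith)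
    have := N_para (f := f) (g := g) z0 (z2 + v + z1)
    linarith

/-- **The six-term inequality.** -/
theorem six {z0 z1 z2 z3 z4 z5 : Pt} (h0 : 0 < x z0) (h01 : x z0 < x z1) (h12 : x z1 < x z2)
    (h23 : x z2 < x z3) (h34 : x z3 < x z4) (h45 : x z4 < x z5)
    (n01 : N f g z1 < N f g z0) (n12 : N f g z2 < N f g z1) (n23 : N f g z3 < N f g z2)
    (n34 : N f g z4 < N f g z3) (n45 : N f g z5 < N f g z4)
    (P0' : ∀ z : Pt, z ≠ 0 → |x z| < x z0 → N f g z0 < N f g z)
    (P0 : Bd x f g (x z1) (N f g z0)) (P1 : Bd x f g (x z2) (N f g z1))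
    (P2 : Bd x f g (x z3) (N f g z2)) (P3 : Bd x f g (x z4) (N f g z3))
    (P4 : Bd x f g (x z5) (N f g z4)) :
    x z3 + x z2 ≤ x z5 ∨ x z4 + x z0 ≤ x z5 := by
  by_contra hcon
  push Not at hcon
  obtain ⟨hc1, hc2⟩ := hcon
  obtain ⟨⟨e2, e3, e4, e23, e24, e34, e234⟩, hz5⟩ :=
    step1 (by linarith) h23 h34 h45 n23 n34 n45 P2 P3 P4 (by linarith)
  obtain ⟨v, rfl⟩ : ∃ v, z3 = z2 + v := ⟨z3 - z2, by abel⟩
  obtain ⟨w, rfl⟩ : ∃ w, z4 = z2 + w := ⟨z4 - z2, by abel⟩
  obtain rfl : z5 = z2 + v + w := by rw [hz5]; abel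
  have x2v : x (z2 + v) = x z2 + x v := map_add x _ _
  have x2w : x (z2 + w) = x z2 + x w := map_add x _ _
  have x2vw : x (z2 + v + w) = x z2 + x v + x w := by simp only [map_add]
  refine step2 (z0 := z0) (z1 := z1) (z2 := z2) (v := v) (w := w) h0 h01 h12 (by linarith) (by linarith)
    (by linarith) (by linarith) n01 n12 n23 n34 n45 P0' P0 P1 P2 P3 e2 ?_ ?_ e3 e4 ?_ ?_
  · exact fun h => e23 (ev z2 h (by abel))
  · exact fun h => e24 (ev z2 h (by abel))
  · exact fun h => e34 (ev z2 h (by abel))
  · exact fun h => e234 (ev z2 h (by abel))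

end R

end Pool.Agent.Work.MP_7453a1_nt_helper12
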