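import Mathlib
import Pool.Agent.Work.MP_7453a1_nt_helper12.EDefs
import Pool.Agent.Work.MP_7453a1_nt_helper12.SixR

set_option autoImplicit false

/-!
`m = 2`, `n = 1`: the points `(x₁, x₂, y)`, best approximation points, existence.
-/

namespace Pool.Agent.Work.MP_7453a1_nt_helper12.E

variable (s t : ℝ)

/-- The linear form `s x₁ + t x₂ - y`. -/
def ah : Pt →+ ℝ :=
  AddMonoidHom.mk' (fun z => s * z.1 + t * z.2.1 - z.2.2) (by intro a b; simp; ring)

/-- First coordinate, as a real number. -/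
def fx : Pt →+ ℝ := AddMonoidHom.mk' (fun z => (z.1 : ℝ)) (by intro a b; simp)

/-- Second coordinate, as a real number. -/
def fy : Pt →+ ℝ := AddMonoidHom.mk' (fun z => (z.2.1 : ℝ)) (by intro a b; simp)

lemma ah_apply (z : Pt) : ah s t z = s * z.1 + t * z.2.1 - z.2.2 := rfl

/-- The square of the length of `(x₁, x₂)`. -/
def n2 (z : Pt) : ℕ := z.1.natAbs ^ 2 + z.2.1.natAbs ^ 2

lemma n2_cast (z : Pt) : (n2 z : ℝ) = N fx fy z := by
  show (n2 z : ℝ) = (z.1 : ℝ) ^ 2 + (z.2.1 : ℝ) ^ 2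
  unfold n2
  push_cast
  have h : ∀ a : ℤ, (a.natAbs : ℝ) ^ 2 = (a : ℝ) ^ 2 := by
    intro a
    rw [Nat.cast_natAbs, Int.cast_abs, sq_abs]
  rw [h, h]

lemma n2_neg (z : Pt) : n2 (-z) = n2 z := by simp [n2]

/-- The independence condition. -/
def Adm : Prop := ∀ z : Pt, z ≠ 0 → ah s t z ≠ 0

/-- Best approximation points. -/
def BPt (w : Pt) : Prop :=
  n2 w ≠ 0 ∧ ∀ u : Pt, n2 u ≤ n2 w → |ah s t u| ≤ |ah s t w| → u = 0 ∨ u = w ∨ u = -w

variable {s t}

lemma BPt.neg {w : Pt} (h : BPt s t w) : BPt s t (-w) := by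
  refine ⟨by rw [n2_neg]; exact h.1, fun u hu hd => ?_⟩
  rw [n2_neg] at hu
  rw [map_neg, abs_neg] at hd
  rcases h.2 u hu hd with h1 | h1 | h1
  · exact Or.inl h1
  · right; right; rw [h1, neg_neg]
  · right; left; exact h1

lemma ah_inj (hA : Adm s t) {u w : Pt} (h : |ah s t u| = |ah s t w|) : u = w ∨ u = -w := by
  rcases abs_eq_abs.mp h with h | h
  · left
    by_contra hne
    exact hA (u - w) (sub_ne_zero.mpr hne) (by rw [map_sub, h, sub_self])
  · right
    by_contra hne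
    have : u + w ≠ 0 := by
      intro h0
      exact hne (eq_neg_of_add_eq_zero_left h0)
    exact hA _ this (by rw [map_add, h, neg_add_cancel])

lemma n2_eq_zero {z : Pt} (h : n2 z = 0) : z.1 = 0 ∧ z.2.1 = 0 := by
  unfold n2 at h
  have h1 : z.1.natAbs ^ 2 = 0 := by omega
  have h2 : z.2.1.natAbs ^ 2 = 0 := by omega
  rw [pow_eq_zero_iff (by norm_num), Int.natAbs_eq_zero] at h1 h2
  exact ⟨h1, h2⟩

lemma int_eq_zero' {a : ℤ} (h : |(a : ℝ)| < 1) : a = 0 := by
  have h1 : |a| < 1 := by exact_mod_cast h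
  rw [Int.abs_lt_one_iff] at h1
  exact h1

/-- A point with `x = 0` and form of absolute value less than one is zero. -/
lemma eq_zero_of {z : Pt} (h : n2 z = 0) (ha : |ah s t z| < 1) : z = 0 := by
  obtain ⟨h1, h2⟩ := n2_eq_zero h
  have h3 : z.2.2 = 0 := by
    rw [ah_apply, h1, h2] at ha
    simp at ha
    exact int_eq_zero' ha
  ext <;> simp [h1, h2, h3]

/-- Points with bounded length and form are finite in number. -/
lemma finite_box (K : ℕ) : {u : Pt | n2 u ≤ K ∧ |ah s t u| ≤ 1}.Finite := by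
  have hbox : {u : Pt | n2 u ≤ K ∧ |ah s t u| ≤ 1} ⊆
      (Set.Icc (-(K : ℤ)) K) ×ˢ (Set.Icc (-(K : ℤ)) K) ×ˢ
        (Set.Icc (-(⌈|s| * K + |t| * K + 1⌉)) ⌈|s| * K + |t| * K + 1⌉) := by
    rintro ⟨a, b, c⟩ ⟨h1, h2⟩
    have habs : ∀ (v : ℤ), v.natAbs ^ 2 ≤ K → |v| ≤ K := by
      intro v hv
      have : v.natAbs ≤ K := le_trans (Nat.le_self_pow (by norm_num) _) hv
      rw [Int.abs_eq_natAbs]
      exact_mod_cast this
    have ha : |a| ≤ K := habs a (by unfold n2 at h1; simp at h1; omega)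
    have hb : |b| ≤ K := habs b (by unfold n2 at h1; simp at h1; omega)
    have ha' : |(a : ℝ)| ≤ K := by exact_mod_cast ha
    have hb' : |(b : ℝ)| ≤ K := by exact_mod_cast hb
    rw [ah_apply] at h2
    simp only at h2
    have hc : |(c : ℝ)| ≤ |s| * K + |t| * K + 1 := by
      have e : (c : ℝ) = s * a + t * b - (s * a + t * b - c) := by ring
      calc |(c : ℝ)| = |s * a + t * b - (s * a + t * b - c)| := by rw [← e]
        _ ≤ |s * a + t * b| + |s * a + t * b - c| := abs_sub _ _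
        _ ≤ |s * a| + |t * b| + |s * a + t * b - c| := by linarith [abs_add_le (s * a) (t * b)]
        _ ≤ |s| * K + |t| * K + 1 := by
          rw [abs_mul, abs_mul]
          have := mul_le_mul_of_nonneg_left ha' (abs_nonneg s)
          have := mul_le_mul_of_nonneg_left hb' (abs_nonneg t)
          linarith
    have hc' : |c| ≤ ⌈|s| * K + |t| * K + 1⌉ := by
      have : ((|c| : ℤ) : ℝ) ≤ ⌈|s| * (K : ℝ) + |t| * K + 1⌉ := by
        push_cast
        exact hc.trans (Int.le_ceil _)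
      exact_mod_cast this
    rw [abs_le] at ha hb hc'
    exact ⟨⟨ha.1, ha.2⟩, ⟨hb.1, hb.2⟩, ⟨hc'.1, hc'.2⟩⟩
  refine Set.Finite.subset ?_ hbox
  exact (Set.finite_Icc _ _).prod ((Set.finite_Icc _ _).prod (Set.finite_Icc _ _))

/-- If some point has a small form then there is a best approximation point. -/
lemma exists_bpt (hA : Adm s t) {r : ℝ} (hr : r ≤ 1) {u : Pt} (hu : n2 u ≠ 0)
    (hN : |ah s t u| < r) : ∃ w : Pt, BPt s t w ∧ n2 w ≤ n2 u ∧ |ah s t w| < r := by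
  classical
  have hex : ∃ q : ℕ, q ≠ 0 ∧ ∃ v : Pt, n2 v = q ∧ |ah s t v| < r := ⟨n2 u, hu, u, rfl, hN⟩
  obtain ⟨hq0, v, hv, hvr⟩ := Nat.find_spec hex
  have hmin : ∀ w : Pt, n2 w ≠ 0 → |ah s t w| < r → Nat.find hex ≤ n2 w := fun w h1 h2 =>
    Nat.find_min' hex ⟨h1, w, rfl, h2⟩
  set q := Nat.find hex with hq
  have hfin : {w : Pt | n2 w = q ∧ |ah s t w| < r}.Finite :=
    (finite_box (s := s) (t := t) q).subset (fun w hw => ⟨hw.1.le, by linarith [hw.2]⟩)
  obtain ⟨w, ⟨hw1, hw2⟩, hw3⟩ := Set.exists_min_image _ (fun w => |ah s t w|) hfin ⟨v, hv, hvr⟩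
  refine ⟨w, ⟨by rw [hw1]; exact hq0, fun u' hu' hd => ?_⟩, by rw [hw1]; exact hmin u hu hN, hw2⟩
  by_cases h0 : n2 u' = 0
  · left
    exact eq_zero_of h0 (by linarith)
  · right
    have h1 := hmin u' h0 (by linarith)
    rw [hw1] at hu'
    have h2 : n2 u' = q := le_antisymm hu' h1
    have h3 := hw3 u' ⟨h2, by linarith⟩
    exact ah_inj hA (le_antisymm hd h3)

/-- Dirichlet's theorem. -/
lemma dir (s t : ℝ) {r : ℝ} (hr : 0 < r) : ∃ u : Pt, n2 u ≠ 0 ∧ |ah s t u| < r := by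
  obtain ⟨n, hn⟩ := exists_nat_gt (1 / r)
  have hn0 : 0 < n := by
    have : (0 : ℝ) < n := lt_trans (by positivity) hn
    exact_mod_cast this
  obtain ⟨j, k, hk0, _, hjk⟩ := Real.exists_int_int_abs_mul_sub_le s hn0
  refine ⟨(k, 0, j), ?_, ?_⟩
  · unfold n2
    simp
    omega
  · rw [ah_apply]
    simp only
    have h1 : s * (k : ℝ) + t * ((0 : ℤ) : ℝ) - (j : ℝ) = k * s - j := by push_cast; ring
    rw [h1]
    refine lt_of_le_of_lt hjk ?_
    have hnr : (0 : ℝ) < n := by exact_mod_cast hn0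
    rw [div_lt_iff₀ hr] at hn
    rw [div_lt_iff₀ (by positivity)]
    nlinarith

/-- Points of bounded length have forms bounded below. -/
lemma form_bdd (hA : Adm s t) (K : ℕ) :
    ∃ r : ℝ, 0 < r ∧ ∀ u : Pt, n2 u ≠ 0 → n2 u ≤ K → r ≤ |ah s t u| := by
  by_cases hne : {u : Pt | (n2 u ≤ K ∧ |ah s t u| ≤ 1) ∧ u ≠ 0}.Nonempty
  · have hfin : {u : Pt | (n2 u ≤ K ∧ |ah s t u| ≤ 1) ∧ u ≠ 0}.Finite :=
      (finite_box (s := s) (t := t) K).subset (fun u hu => hu.1)
    obtain ⟨w, ⟨_, hw2⟩, hw3⟩ := Set.exists_min_image _ (fun w => |ah s t w|) hfin hne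
    refine ⟨min 1 |ah s t w|, lt_min one_pos (abs_pos.mpr (hA w hw2)), fun u h0 hu => ?_⟩
    by_cases h1 : |ah s t u| ≤ 1
    · have hu0 : u ≠ 0 := by rintro rfl; exact h0 (by simp [n2])
      exact (min_le_right _ _).trans (hw3 u ⟨⟨hu, h1⟩, hu0⟩)
    · push Not at h1
      exact (min_le_left _ _).trans h1.le
  · refine ⟨1, one_pos, fun u h0 hu => ?_⟩
    by_contra hcon
    push Not at hcon
    have hu0 : u ≠ 0 := by rintro rfl; exact h0 (by simp [n2])
    exact hne ⟨u, ⟨hu, hcon.le⟩, hu0⟩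

/-- `q` is the squared length of a best approximation point. -/
def IsB (s t : ℝ) (q : ℕ) : Prop := ∃ w : Pt, BPt s t w ∧ n2 w = q

lemma infB (hA : Adm s t) : {q : ℕ | IsB s t q}.Infinite := by
  rw [Set.infinite_iff_exists_gt]
  intro K
  obtain ⟨r, hr, h⟩ := form_bdd hA K
  obtain ⟨u, hu, hN⟩ := dir s t (lt_min hr (zero_lt_one (α := ℝ)))
  obtain ⟨w, hw, _, hwN⟩ := exists_bpt hA (min_le_right _ _) hu hN
  refine ⟨n2 w, ⟨w, hw, rfl⟩, ?_⟩
  by_contra hcon
  push Not at hcon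
  have := h w hw.1 hcon
  linarith [hwN.trans_le (min_le_left _ _)]

/-- A choice of the best approximation points, with positive value of the form. -/
lemma exists_w (hA : Adm s t) :
    ∃ w : ℕ → Pt, ∀ k, BPt s t (w k) ∧ n2 (w k) = Nat.nth (IsB s t) k ∧ 0 < ah s t (w k) := by
  have h : ∀ k, ∃ w : Pt, BPt s t w ∧ n2 w = Nat.nth (IsB s t) k ∧ 0 < ah s t w := by
    intro k
    obtain ⟨w, hw, hq⟩ := Nat.nth_mem_of_infinite (infB hA) k
    have hw0 : w ≠ 0 := by rintro rfl; exact hw.1 (by simp [n2])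
    rcases lt_or_gt_of_ne (hA w hw0) with h1 | h1
    · exact ⟨-w, hw.neg, by rw [n2_neg]; exact hq, by rw [map_neg]; linarith⟩
    · exact ⟨w, hw, hq, h1⟩
  choose w hw using h
  exact ⟨w, hw⟩

section seq

variable {w : ℕ → Pt}

lemma n2_lt (hA : Adm s t)
    (hw : ∀ k, BPt s t (w k) ∧ n2 (w k) = Nat.nth (IsB s t) k ∧ 0 < ah s t (w k)) {k l : ℕ}
    (h : k < l) : n2 (w k) < n2 (w l) := by
  rw [(hw k).2.1, (hw l).2.1]
  exact Nat.nth_strictMono (infB hA) h

lemma ah_lt (hA : Adm s t)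
    (hw : ∀ k, BPt s t (w k) ∧ n2 (w k) = Nat.nth (IsB s t) k ∧ 0 < ah s t (w k)) {k l : ℕ}
    (h : k < l) : ah s t (w l) < ah s t (w k) := by
  by_contra hcon
  push Not at hcon
  have h1 := n2_lt hA hw h
  have h2 := (hw k).2.2
  have h3 := (hw l).2.2
  rcases (hw l).1.2 (w k) h1.le (by rw [abs_of_pos h2, abs_of_pos h3]; exact hcon) with
    h4 | h4 | h4
  · rw [h4, map_zero] at h2; exact lt_irrefl _ h2
  · rw [h4] at h1; exact lt_irrefl _ h1
  · rw [h4, n2_neg] at h1; exact lt_irrefl _ h1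

lemma ah_lt_one (hw : ∀ k, BPt s t (w k) ∧ n2 (w k) = Nat.nth (IsB s t) k ∧ 0 < ah s t (w k))
    (k : ℕ) : ah s t (w k) < 1 := by
  by_contra hcon
  push Not at hcon
  have h2 := (hw k).2.2
  have h0 := (hw k).1.1
  have e : ah s t ((0, 0, 1) : Pt) = -1 := by rw [ah_apply]; simp
  rcases (hw k).1.2 (0, 0, 1) (by simp [n2]) (by rw [e, abs_of_pos h2]; simpa using hcon) with
    h4 | h4 | h4
  · have := congrArg (fun z : Pt => z.2.2) h4
    simp at this
  · rw [← h4] at h0; simp [n2] at h0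
  · rw [← n2_neg, ← h4] at h0; simp [n2] at h0

/-- Points with smaller form than the `k`-th are at least as long as the `k+1`-st. -/
lemma Bd_next (hA : Adm s t)
    (hw : ∀ k, BPt s t (w k) ∧ n2 (w k) = Nat.nth (IsB s t) k ∧ 0 < ah s t (w k)) (k : ℕ) :
    R.Bd (ah s t) fx fy (ah s t (w k)) (N fx fy (w (k + 1))) := by
  classical
  intro u hu0 hu
  rw [← n2_cast, ← n2_cast]
  by_contra hcon
  push Not at hcon
  have hcon' : n2 u < n2 (w (k + 1)) := by exact_mod_cast hcon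
  have h1 := ah_lt_one hw k
  have hun : n2 u ≠ 0 := fun h => hu0 (eq_zero_of h (by linarith))
  obtain ⟨v, hv, hv1, hv2⟩ := exists_bpt hA h1.le hun hu
  have h2 : n2 (w k) < n2 v := by
    by_contra h
    push Not at h
    rcases (hw k).1.2 v h (by rw [abs_of_pos (hw k).2.2]; exact hv2.le) with h4 | h4 | h4
    · rw [h4] at hv; exact hv.1 (by simp [n2])
    · rw [h4, abs_of_pos (hw k).2.2] at hv2; exact lt_irrefl _ hv2
    · rw [h4, map_neg, abs_neg, abs_of_pos (hw k).2.2] at hv2; exact lt_irrefl _ hv2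
  have h3 : IsB s t (n2 v) := ⟨v, hv, rfl⟩
  obtain ⟨n, hn⟩ : ∃ n, Nat.nth (IsB s t) n = n2 v := ⟨_, Nat.nth_count h3⟩
  rw [← (hw n).2.1] at hn
  have h5 : k < n := by
    by_contra h
    push Not at h
    rcases lt_or_eq_of_le h with h | h
    · have := n2_lt hA hw h; omega
    · rw [h] at hn; omega
  have h6 : n < k + 1 := by
    by_contra h
    push Not at h
    rcases lt_or_eq_of_le h with h | h
    · have := n2_lt hA hw h; omega
    · rw [← h] at hn; omega
  omega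

end seq

end Pool.Agent.Work.MP_7453a1_nt_helper12.E
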