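import Mathlib
import Pool.Agent.Work.MP_7453a1_nt.Plastic
import Pool.Agent.Work.MP_7453a1_nt_helper12.TOne

set_option autoImplicit false

/-!
`m = 2`, `n = 1`: the lower bound for the growth of the best approximations.
-/

namespace Pool.Agent.Work.MP_7453a1_nt_helper12.E

open Pool.Agent.Work.MP_7453a1_nt

variable {s t : ℝ} {w : ℕ → Pt}

/-- The six-term inequality for the values of the form. -/
lemma six_a (hA : Adm s t)
    (hw : ∀ k, BPt s t (w k) ∧ n2 (w k) = Nat.nth (IsB s t) k ∧ 0 < ah s t (w k)) (k : ℕ) :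
    ah s t (w (k + 2)) + ah s t (w (k + 3)) ≤ ah s t (w k) ∨
      ah s t (w (k + 1)) + ah s t (w (k + 5)) ≤ ah s t (w k) := by
  have hN : ∀ i j, i < j → N fx fy (w i) < N fx fy (w j) := by
    intro i j h
    rw [← n2_cast, ← n2_cast]
    exact_mod_cast n2_lt hA hw h
  refine R.six (x := ah s t) (f := fx) (g := fy) (z0 := w (k + 5)) (z1 := w (k + 4))
    (z2 := w (k + 3)) (z3 := w (k + 2)) (z4 := w (k + 1)) (z5 := w k) (hw _).2.2
    (ah_lt hA hw (by omega)) (ah_lt hA hw (by omega)) (ah_lt hA hw (by omega))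
    (ah_lt hA hw (by omega)) (ah_lt hA hw (by omega)) (hN _ _ (by omega)) (hN _ _ (by omega))
    (hN _ _ (by omega)) (hN _ _ (by omega)) (hN _ _ (by omega)) ?_
    (Bd_next hA hw (k + 4)) (Bd_next hA hw (k + 3)) (Bd_next hA hw (k + 2))
    (Bd_next hA hw (k + 1)) (Bd_next hA hw k)
  intro z hz hx
  rw [← n2_cast, ← n2_cast]
  by_contra hcon
  push Not at hcon
  have hcon' : n2 z ≤ n2 (w (k + 5)) := by exact_mod_cast hcon
  have h5 := (hw (k + 5)).2.2
  rcases (hw (k + 5)).1.2 z hcon' (by rw [abs_of_pos h5]; exact hx.le) with h | h | h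
  · exact hz h
  · rw [h, abs_of_pos h5] at hx; exact lt_irrefl _ hx
  · rw [h, map_neg, abs_neg, abs_of_pos h5] at hx; exact lt_irrefl _ hx

lemma rho_pow5 {ρ : ℝ} (hρ : ρ ^ 3 = ρ + 1) : ρ ^ 5 = ρ ^ 4 + 1 := by
  linear_combination (ρ ^ 2 - ρ + 1) * hρ

/-- Exponential decay of the values of the form. -/
lemma decay (hA : Adm s t)
    (hw : ∀ k, BPt s t (w k) ∧ n2 (w k) = Nat.nth (IsB s t) k ∧ 0 < ah s t (w k))
    {ρ : ℝ} (hρ : ρ ^ 3 = ρ + 1) (k : ℕ) : ah s t (w k) * ρ ^ k ≤ ah s t (w 0) * ρ ^ 5 := by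
  have hρ1 : 1 < ρ := by linarith [(rho_bounds hρ).1]
  have hρ0 : 0 < ρ := by linarith
  have key : ∀ ν : ℕ, ∃ k, k ≤ ν ∧ ν < k + 5 ∧ ah s t (w k) * ρ ^ k ≤ ah s t (w 0) := by
    intro ν
    induction ν with
    | zero => exact ⟨0, le_rfl, by omega, by simp⟩
    | succ ν ih =>
      obtain ⟨k, h1, h2, h3⟩ := ih
      by_cases h4 : ν + 1 < k + 5
      · exact ⟨k, by omega, h4, h3⟩
      · have hpk : 0 < ρ ^ k := by positivity
        rcases six_a hA hw k with h5 | h5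
        · by_cases h6 : ah s t (w (k + 2)) * ρ ^ (k + 2) ≤ ah s t (w 0)
          · exact ⟨k + 2, by omega, by omega, h6⟩
          · refine ⟨k + 3, by omega, by omega, ?_⟩
            by_contra h7
            push Not at h6 h7
            have e1 : ρ ^ (k + 2) * ρ = ρ ^ k * ρ ^ 3 := by ring
            have e2 : ρ ^ (k + 3) = ρ ^ k * ρ ^ 3 := by ring
            have h8 : ah s t (w 0) * ρ < ah s t (w (k + 2)) * (ρ ^ k * ρ ^ 3) := by
              rw [← e1]; nlinarith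
            rw [e2] at h7
            have h9 : (ah s t (w (k + 2)) + ah s t (w (k + 3))) * (ρ ^ k * ρ ^ 3)
                ≤ ah s t (w k) * (ρ ^ k * ρ ^ 3) :=
              mul_le_mul_of_nonneg_right h5 (by positivity)
            have h10 : ah s t (w k) * (ρ ^ k * ρ ^ 3) ≤ ah s t (w 0) * ρ ^ 3 := by
              calc ah s t (w k) * (ρ ^ k * ρ ^ 3) = (ah s t (w k) * ρ ^ k) * ρ ^ 3 := by ring
                _ ≤ _ := mul_le_mul_of_nonneg_right h3 (by positivity)
            have h11 : ah s t (w 0) * ρ ^ 3 = ah s t (w 0) * ρ + ah s t (w 0) := by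
              rw [hρ]; ring
            linarith
        · by_cases h6 : ah s t (w (k + 1)) * ρ ^ (k + 1) ≤ ah s t (w 0)
          · exact ⟨k + 1, by omega, by omega, h6⟩
          · refine ⟨k + 5, by omega, by omega, ?_⟩
            by_contra h7
            push Not at h6 h7
            have e1 : ρ ^ (k + 1) * ρ ^ 4 = ρ ^ k * ρ ^ 5 := by ring
            have e2 : ρ ^ (k + 5) = ρ ^ k * ρ ^ 5 := by ring
            have h8 : ah s t (w 0) * ρ ^ 4 < ah s t (w (k + 1)) * (ρ ^ k * ρ ^ 5) := by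
              rw [← e1, ← mul_assoc]
              exact mul_lt_mul_of_pos_right h6 (by positivity)
            rw [e2] at h7
            have h9 : (ah s t (w (k + 1)) + ah s t (w (k + 5))) * (ρ ^ k * ρ ^ 5)
                ≤ ah s t (w k) * (ρ ^ k * ρ ^ 5) :=
              mul_le_mul_of_nonneg_right h5 (by positivity)
            have h10 : ah s t (w k) * (ρ ^ k * ρ ^ 5) ≤ ah s t (w 0) * ρ ^ 5 := by
              calc ah s t (w k) * (ρ ^ k * ρ ^ 5) = (ah s t (w k) * ρ ^ k) * ρ ^ 5 := by ring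
                _ ≤ _ := mul_le_mul_of_nonneg_right h3 (by positivity)
            have h11 : ah s t (w 0) * ρ ^ 5 = ah s t (w 0) * ρ ^ 4 + ah s t (w 0) := by
              rw [rho_pow5 hρ]; ring
            linarith
  obtain ⟨j, h1, h2, h3⟩ := key k
  have h4 : ah s t (w k) ≤ ah s t (w j) := by
    rcases h1.eq_or_lt with h | h
    · rw [h]
    · exact (ah_lt hA hw h).le
  have h0 := (hw 0).2.2
  calc ah s t (w k) * ρ ^ k ≤ ah s t (w j) * ρ ^ (j + 5) := by
        apply mul_le_mul h4 (pow_le_pow_right₀ hρ1.le (by omega)) (by positivity) (hw j).2.2.le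
    _ = (ah s t (w j) * ρ ^ j) * ρ ^ 5 := by ring
    _ ≤ _ := mul_le_mul_of_nonneg_right h3 (by positivity)

/-- The determinant of three integer points. -/
def D (u v z : Pt) : ℤ :=
  u.2.2 * (v.1 * z.2.1 - v.2.1 * z.1) - v.2.2 * (u.1 * z.2.1 - u.2.1 * z.1)
    + z.2.2 * (u.1 * v.2.1 - u.2.1 * v.1)

lemma D_eq (s t : ℝ) (u v z : Pt) : (D u v z : ℝ) =
    -(ah s t u * (v.1 * z.2.1 - v.2.1 * z.1) - ah s t v * (u.1 * z.2.1 - u.2.1 * z.1)
      + ah s t z * (u.1 * v.2.1 - u.2.1 * v.1)) := by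
  simp only [D, ah_apply]
  push_cast
  ring

lemma wedge_le (u v : Pt) {q : ℝ} (hu : (n2 u : ℝ) ≤ q) (hv : (n2 v : ℝ) ≤ q) :
    |(u.1 * v.2.1 - u.2.1 * v.1 : ℝ)| ≤ q := by
  rw [n2_cast] at hu hv
  change (u.1 : ℝ) ^ 2 + (u.2.1 : ℝ) ^ 2 ≤ q at hu
  change (v.1 : ℝ) ^ 2 + (v.2.1 : ℝ) ^ 2 ≤ q at hv
  rw [abs_le]
  constructor
  · nlinarith [sq_nonneg ((u.1 : ℝ) + v.2.1), sq_nonneg ((u.2.1 : ℝ) - v.1)]
  · nlinarith [sq_nonneg ((u.1 : ℝ) - v.2.1), sq_nonneg ((u.2.1 : ℝ) + v.1)]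

lemma det_bd (hA : Adm s t)
    (hw : ∀ k, BPt s t (w k) ∧ n2 (w k) = Nat.nth (IsB s t) k ∧ 0 < ah s t (w k)) (k : ℕ)
    (h : D (w k) (w (k + 1)) (w (k + 2)) ≠ 0) : 1 ≤ 3 * ah s t (w k) * n2 (w (k + 2)) := by
  have h1 : (1 : ℝ) ≤ |(D (w k) (w (k + 1)) (w (k + 2)) : ℝ)| := by
    have : 1 ≤ |D (w k) (w (k + 1)) (w (k + 2))| := Int.one_le_abs h
    exact_mod_cast this
  rw [D_eq s t] at h1
  have n0 : (n2 (w k) : ℝ) ≤ n2 (w (k + 2)) := by
    exact_mod_cast (n2_lt hA hw (show k < k + 2 by omega)).le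
  have n1 : (n2 (w (k + 1)) : ℝ) ≤ n2 (w (k + 2)) := by
    exact_mod_cast (n2_lt hA hw (show k + 1 < k + 2 by omega)).le
  have a0 := (hw k).2.2
  have a1 := (hw (k + 1)).2.2
  have a2 := (hw (k + 2)).2.2
  have l1 := ah_lt hA hw (show k < k + 1 by omega)
  have l2 := ah_lt hA hw (show k < k + 2 by omega)
  have w1 := wedge_le (w (k + 1)) (w (k + 2)) n1 le_rfl
  have w2 := wedge_le (w k) (w (k + 2)) n0 le_rfl
  have w3 := wedge_le (w k) (w (k + 1)) n0 n1
  set q : ℝ := (n2 (w (k + 2)) : ℝ) with hq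
  generalize hA1 : ((w (k + 1)).1 * (w (k + 2)).2.1 - (w (k + 1)).2.1 * (w (k + 2)).1 : ℝ) = A1 at *
  generalize hA2 : ((w k).1 * (w (k + 2)).2.1 - (w k).2.1 * (w (k + 2)).1 : ℝ) = A2 at *
  generalize hA3 : ((w k).1 * (w (k + 1)).2.1 - (w k).2.1 * (w (k + 1)).1 : ℝ) = A3 at *
  generalize ah s t (w k) = b0 at *
  generalize ah s t (w (k + 1)) = b1 at *
  generalize ah s t (w (k + 2)) = b2 at *
  have p1 : |b0 * A1| ≤ b0 * q := by
    rw [abs_mul, abs_of_pos a0]
    exact mul_le_mul_of_nonneg_left w1 a0.le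
  have p2 : |b1 * A2| ≤ b0 * q := by
    rw [abs_mul, abs_of_pos a1]
    exact mul_le_mul l1.le w2 (abs_nonneg _) a0.le
  have p3 : |b2 * A3| ≤ b0 * q := by
    rw [abs_mul, abs_of_pos a2]
    exact mul_le_mul l2.le w3 (abs_nonneg _) a0.le
  rw [abs_neg] at h1
  have p4 := abs_add_le (b0 * A1 - b1 * A2) (b2 * A3)
  have p5 := abs_sub (b0 * A1) (b1 * A2)
  linarith

/-- The parity of the determinant. -/
def D2 (a b c : ZMod 2 × ZMod 2 × ZMod 2) : ZMod 2 :=
  a.2.2 * (b.1 * c.2.1 - b.2.1 * c.1) - b.2.2 * (a.1 * c.2.1 - a.2.1 * c.1)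
    + c.2.2 * (a.1 * b.2.1 - a.2.1 * b.1)

lemma D2_eq (u v z : Pt) : ((D u v z : ℤ) : ZMod 2) = D2 (par u) (par v) (par z) := by
  simp only [D, D2, par]
  push_cast
  ring

set_option synthInstance.maxSize 4000 in
set_option maxRecDepth 4000 in
lemma four_classes : ∀ a b c d : ZMod 2 × ZMod 2 × ZMod 2, a ≠ 0 → b ≠ 0 → c ≠ 0 → d ≠ 0 →
    D2 a b c = 0 → D2 b c d = 0 → a + b = 0 ∨ a + c = 0 ∨ a + d = 0 ∨ b + c = 0 ∨ b + d = 0
      ∨ c + d = 0 := by
  decide +kernel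

/-- Best approximation points are not even. -/
lemma not_even (hw : ∀ k, BPt s t (w k) ∧ n2 (w k) = Nat.nth (IsB s t) k ∧ 0 < ah s t (w k))
    (k : ℕ) : ¬ Even (w k) := by
  rintro ⟨u, hu⟩
  have h0 := (hw k).1.1
  have ha := (hw k).2.2
  have e1 : ah s t (w k) = 2 * ah s t u := by rw [hu, map_add]; ring
  have e2 : n2 (w k) = 4 * n2 u := by
    have h1 : (n2 (w k) : ℝ) = 4 * (n2 u : ℝ) := by
      rw [n2_cast, n2_cast, hu, N_two]
    exact_mod_cast h1
  rcases (hw k).1.2 u (by omega) (by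
    rw [abs_of_pos (by linarith : (0:ℝ) < ah s t u), abs_of_pos ha]; linarith) with h | h | h
  · rw [h] at e1; simp at e1; linarith
  · rw [← h] at e2; rw [← h] at h0; omega
  · have : n2 u = n2 (w k) := by rw [h, n2_neg]
    omega

/-- Two congruent best approximation points. -/
lemma congr_bd (hA : Adm s t)
    (hw : ∀ k, BPt s t (w k) ∧ n2 (w k) = Nat.nth (IsB s t) k ∧ 0 < ah s t (w k)) {i j : ℕ}
    (hij : i < j) (he : Even (w i + w j)) : 3 * n2 (w (i + 1)) ≤ n2 (w j) := by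
  have ai := (hw i).2.2
  have aj := (hw j).2.2
  have al := ah_lt hA hw hij
  have hB := Bd_next hA hw i
  have b1 := hB.half' (z := w i + w j) (by rw [map_add]; linarith) he (by rw [map_add]; linarith)
    (by rw [map_add]; linarith)
  have b2 := hB.half' (z := w i - w j) (by rw [map_sub]; linarith) (ev (-w j) he (by abel))
    (by rw [map_sub]; linarith) (by rw [map_sub]; linarith)
  have h1 := N_para (f := fx) (g := fy) (w i) (w j)
  have h2 : (n2 (w i) : ℝ) ≤ n2 (w (i + 1)) := by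
    exact_mod_cast (n2_lt hA hw (show i < i + 1 by omega)).le
  rw [n2_cast, n2_cast] at h2
  have h3 : (3 * n2 (w (i + 1)) : ℝ) ≤ n2 (w j) := by
    rw [n2_cast, n2_cast]
    linarith
  exact_mod_cast h3

lemma n2_le (hA : Adm s t)
    (hw : ∀ k, BPt s t (w k) ∧ n2 (w k) = Nat.nth (IsB s t) k ∧ 0 < ah s t (w k)) {k l : ℕ}
    (h : k ≤ l) : n2 (w k) ≤ n2 (w l) := by
  rcases h.eq_or_lt with h | h
  · rw [h]
  · exact (n2_lt hA hw h).le

/-- If two consecutive determinants vanish then the length triples. -/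
lemma triple (hA : Adm s t)
    (hw : ∀ k, BPt s t (w k) ∧ n2 (w k) = Nat.nth (IsB s t) k ∧ 0 < ah s t (w k)) (k : ℕ)
    (h1 : D (w k) (w (k + 1)) (w (k + 2)) = 0) (h2 : D (w (k + 1)) (w (k + 2)) (w (k + 3)) = 0) :
    3 * n2 (w (k + 1)) ≤ n2 (w (k + 3)) := by
  have ne : ∀ i, par (w i) ≠ 0 := fun i h => not_even hw i ((even_iff _).mpr h)
  have d1 : D2 (par (w k)) (par (w (k + 1))) (par (w (k + 2))) = 0 := by
    rw [← D2_eq, h1]; simp
  have d2 : D2 (par (w (k + 1))) (par (w (k + 2))) (par (w (k + 3))) = 0 := by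
    rw [← D2_eq, h2]; simp
  have fin : ∀ i j, k ≤ i → i < j → j ≤ k + 3 → par (w i) + par (w j) = 0 →
      3 * n2 (w (k + 1)) ≤ n2 (w (k + 3)) := by
    intro i j hi hij hj hp
    have he : Even (w i + w j) := by
      rw [even_iff, par_add]; exact hp
    have := congr_bd hA hw hij he
    have := n2_le hA hw (show k + 1 ≤ i + 1 by omega)
    have := n2_le hA hw hj
    omega
  rcases four_classes _ _ _ _ (ne k) (ne (k + 1)) (ne (k + 2)) (ne (k + 3)) d1 d2 with
    h | h | h | h | h | h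
  · exact fin _ _ (by omega) (by omega) (by omega) h
  · exact fin _ _ (by omega) (by omega) (by omega) h
  · exact fin _ _ (by omega) (by omega) (by omega) h
  · exact fin _ _ (by omega) (by omega) (by omega) h
  · exact fin _ _ (by omega) (by omega) (by omega) h
  · exact fin _ _ (by omega) (by omega) (by omega) h

/-- Exponential growth of the squares of the lengths. -/
theorem growth (hA : Adm s t)
    (hw : ∀ k, BPt s t (w k) ∧ n2 (w k) = Nat.nth (IsB s t) k ∧ 0 < ah s t (w k))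
    {ρ : ℝ} (hρ : ρ ^ 3 = ρ + 1) : ∃ c : ℝ, 0 < c ∧ ∀ ν, c * ρ ^ ν ≤ n2 (w ν) := by
  have hρ1 : 1 < ρ := by linarith [(rho_bounds hρ).1]
  have hρ0 : 0 < ρ := by linarith
  have hρ3 : ρ ^ 2 ≤ 3 := by linarith [(rho_sq_bounds hρ).2]
  have a0 := (hw 0).2.2
  set A := ah s t (w 0) with hAdef
  set c : ℝ := min (1 / ρ ^ 2) (1 / (3 * A * ρ ^ 8)) with hc
  have hc0 : 0 < c := lt_min (by positivity) (by positivity)
  have hc1 : c * ρ ^ 2 ≤ 1 := by
    have := min_le_left (1 / ρ ^ 2) (1 / (3 * A * ρ ^ 8))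
    rw [← hc, le_div_iff₀ (by positivity)] at this
    exact this
  have hc2 : c * (3 * A * ρ ^ 8) ≤ 1 := by
    have := min_le_right (1 / ρ ^ 2) (1 / (3 * A * ρ ^ 8))
    rw [← hc, le_div_iff₀ (by positivity)] at this
    exact this
  have one : ∀ k, (1 : ℝ) ≤ n2 (w k) := by
    intro k
    have := (hw k).1.1
    exact_mod_cast (by omega : 1 ≤ n2 (w k))
  -- a nonzero determinant at index `k` gives the bound at all indices between `k+2` and `k+3`
  have nz : ∀ k, D (w k) (w (k + 1)) (w (k + 2)) ≠ 0 → c * ρ ^ (k + 3) ≤ n2 (w (k + 2)) := by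
    intro k hk
    have h1 := det_bd hA hw k hk
    have h2 := decay hA hw hρ k
    rw [← hAdef] at h2
    have hn := one (k + 2)
    set q : ℝ := (n2 (w (k + 2)) : ℝ) with hq
    have h3 : ρ ^ k ≤ 3 * A * ρ ^ 5 * q := by
      have h4 : ρ ^ k * 1 ≤ ρ ^ k * (3 * ah s t (w k) * q) :=
        mul_le_mul_of_nonneg_left h1 (by positivity)
      have h5 : (ah s t (w k) * ρ ^ k) * (3 * q) ≤ (A * ρ ^ 5) * (3 * q) :=
        mul_le_mul_of_nonneg_right h2 (by positivity)
      nlinarith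
    calc c * ρ ^ (k + 3) = c * ρ ^ 3 * ρ ^ k := by ring
      _ ≤ c * ρ ^ 3 * (3 * A * ρ ^ 5 * q) := mul_le_mul_of_nonneg_left h3 (by positivity)
      _ = (c * (3 * A * ρ ^ 8)) * q := by ring
      _ ≤ 1 * q := mul_le_mul_of_nonneg_right hc2 (by positivity)
      _ = q := one_mul q
  refine ⟨c, hc0, fun ν => ?_⟩
  induction ν using Nat.strong_induction_on with
  | _ ν ih =>
    by_cases hν : ν ≤ 2
    · calc c * ρ ^ ν ≤ c * ρ ^ 2 :=
            mul_le_mul_of_nonneg_left (pow_le_pow_right₀ hρ1.le hν) hc0.le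
        _ ≤ 1 := hc1
        _ ≤ _ := one ν
    · obtain ⟨k, rfl⟩ : ∃ k, ν = k + 3 := ⟨ν - 3, by omega⟩
      by_cases h1 : D (w k) (w (k + 1)) (w (k + 2)) = 0
      · by_cases h2 : D (w (k + 1)) (w (k + 2)) (w (k + 3)) = 0
        · have h3 := triple hA hw k h1 h2
          have h4 := ih (k + 1) (by omega)
          have h5 : (3 * n2 (w (k + 1)) : ℝ) ≤ n2 (w (k + 3)) := by exact_mod_cast h3
          calc c * ρ ^ (k + 3) = ρ ^ 2 * (c * ρ ^ (k + 1)) := by ring
            _ ≤ 3 * (c * ρ ^ (k + 1)) := mul_le_mul_of_nonneg_right hρ3 (by positivity)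
            _ ≤ 3 * n2 (w (k + 1)) := by linarith
            _ ≤ _ := h5
        · have h3 := nz (k + 1) h2
          calc c * ρ ^ (k + 3) ≤ c * ρ ^ (k + 1 + 3) :=
                mul_le_mul_of_nonneg_left (pow_le_pow_right₀ hρ1.le (by omega)) hc0.le
            _ ≤ _ := h3
      · have h3 := nz k h1
        have h4 : (n2 (w (k + 2)) : ℝ) ≤ n2 (w (k + 3)) := by
          exact_mod_cast (n2_lt hA hw (show k + 2 < k + 3 by omega)).le
        linarith

end Pool.Agent.Work.MP_7453a1_nt_helper12.E
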