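import Mathlib
import Pool.Agent.Work.MP_7453a1_nt.Chain
import Pool.Agent.Work.MP_7453a1_nt_helper12.TOne

set_option autoImplicit false

/-!
`m = 2`, `n = 1`: the example, from the negative powers of the plastic number.
-/

namespace Pool.Agent.Work.MP_7453a1_nt_helper12.E

open Pool.Agent.Work.MP_7453a1_nt

/-- Coordinates of `ρ ^ (-k)`. -/
def uv : ℕ → ℤ × ℤ × ℤ
  | 0 => (1, 0, 0)
  | k + 1 => ((uv k).2.1 - (uv k).1, (uv k).2.2, (uv k).1)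

lemma L_uv {ρ : ℝ} (hρ : ρ ^ 3 = ρ + 1) (k : ℕ) :
    L ρ (uv k).1 (uv k).2.1 (uv k).2.2 * ρ ^ k = 1 := by
  induction k with
  | zero => simp [uv, L]
  | succ k ih =>
    show L ρ ((uv k).2.1 - (uv k).1) (uv k).2.2 (uv k).1 * ρ ^ (k + 1) = 1
    have h := L_U hρ ((uv k).2.1 - (uv k).1) (uv k).2.2 (uv k).1
    rw [show (uv k).2.1 - (uv k).1 + (uv k).1 = (uv k).2.1 by ring] at h
    rw [← ih, h, pow_succ]; ring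

lemma Q_uv {ρ : ℝ} (hρ : ρ ^ 3 = ρ + 1) (k : ℕ) :
    Q ρ (uv k).1 (uv k).2.1 (uv k).2.2 = ρ ^ k := by
  induction k with
  | zero => simp [uv, Q]
  | succ k ih =>
    show Q ρ ((uv k).2.1 - (uv k).1) (uv k).2.2 (uv k).1 = ρ ^ (k + 1)
    have h := Q_U hρ ((uv k).2.1 - (uv k).1) (uv k).2.2 (uv k).1
    rw [show (uv k).2.1 - (uv k).1 + (uv k).1 = (uv k).2.1 by ring] at h
    rw [← h, ih, pow_succ]; ring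

/-- Lattice points in the `k`-th flat cylinder. -/
lemma small_uk {ρ : ℝ} (hρ : ρ ^ 3 = ρ + 1) (k : ℕ) : ∀ X Y Z : ℤ,
    |L ρ X Y Z| * ρ ^ k ≤ 5 / 4 → Q ρ X Y Z ≤ 1.26 * ρ ^ k →
    (X = 0 ∧ Y = 0 ∧ Z = 0) ∨ (X = (uv k).1 ∧ Y = (uv k).2.1 ∧ Z = (uv k).2.2) ∨
      (X = -(uv k).1 ∧ Y = -(uv k).2.1 ∧ Z = -(uv k).2.2) := by
  have hρ0 : 0 < ρ := by have := (rho_bounds hρ).1; linarith
  induction k with
  | zero =>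
    intro X Y Z hL hQ
    have := small hρ X Y Z (by simpa using hL) (by simpa using hQ)
    simpa [uv] using this
  | succ k ih =>
    intro X Y Z hL hQ
    have h1 := L_U hρ X Y Z
    have h2 := Q_U hρ X Y Z
    have hL' : |L ρ Z (X + Z) Y| * ρ ^ k ≤ 5 / 4 := by
      rw [h1, abs_mul, abs_of_pos hρ0]
      rw [pow_succ] at hL
      linarith
    have hQ' : Q ρ Z (X + Z) Y ≤ 1.26 * ρ ^ k := by
      rw [← h2, pow_succ] at hQ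
      have : ρ * Q ρ Z (X + Z) Y ≤ ρ * (1.26 * ρ ^ k) := by linarith
      exact le_of_mul_le_mul_left this hρ0
    show (X = 0 ∧ Y = 0 ∧ Z = 0) ∨
      (X = (uv k).2.1 - (uv k).1 ∧ Y = (uv k).2.2 ∧ Z = (uv k).1) ∨
      (X = -((uv k).2.1 - (uv k).1) ∧ Y = -(uv k).2.2 ∧ Z = -(uv k).1)
    rcases ih Z (X + Z) Y hL' hQ' with ⟨a, b, c⟩ | ⟨a, b, c⟩ | ⟨a, b, c⟩
    · left; exact ⟨by omega, c, a⟩
    · right; left; exact ⟨by omega, c, a⟩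
    · right; right; exact ⟨by omega, c, a⟩

/-- The two entries of the matrix. -/
noncomputable def sv (ρ : ℝ) : ℝ := (23 + 2 * ρ + 3 * ρ ^ 2) / 37
noncomputable def tv (ρ : ℝ) : ℝ := (-12 + 7 * ρ - 8 * ρ ^ 2) / 37

lemma L_eq_ah {ρ : ℝ} (hρ : ρ ^ 3 = ρ + 1) (u : Pt) :
    L ρ (u.1 - 2 * u.2.2) (-2 * u.1 + 2 * u.2.1 + 3 * u.2.2) (-u.2.1)
      = (2 - 3 * ρ) * ah (sv ρ) (tv ρ) u := by
  rw [ah_apply]
  unfold L sv tv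
  push_cast
  linear_combination ((9 * u.1 - 24 * u.2.1) / 37 : ℝ) * hρ

/-- The quadratic form. -/
noncomputable def Pf (ρ x y a : ℝ) : ℝ :=
  (254 + 339 * ρ + 453 * ρ ^ 2) / 1369 * x ^ 2 + (-109 + 1078 * ρ - 825 * ρ ^ 2) / 1369 * (x * y)
    + (1983 + 647 * ρ - 565 * ρ ^ 2) / 1369 * y ^ 2
    + a * ((-138 - 123 * ρ - 18 * ρ ^ 2) / 37 * x + (35 + 180 * ρ - 174 * ρ ^ 2) / 37 * y)
    + (-5 + 6 * ρ + 9 * ρ ^ 2) * a ^ 2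

lemma Q_eq_Pf {ρ : ℝ} (hρ : ρ ^ 3 = ρ + 1) (u : Pt) :
    Q ρ (u.1 - 2 * u.2.2) (-2 * u.1 + 2 * u.2.1 + 3 * u.2.2) (-u.2.1)
      = Pf ρ u.1 u.2.1 (ah (sv ρ) (tv ρ) u) := by
  rw [ah_apply]
  unfold Q sv tv Pf
  push_cast
  linear_combination ((30/37*(u.2.1:ℝ)^1*(u.2.2:ℝ)^1) + (-144/37*(u.2.1:ℝ)^1*(u.2.2:ℝ)^1*ρ^1)
    + (2212/1369*(u.2.1:ℝ)^2) + (-85/37*(u.2.1:ℝ)^2*ρ^1) + (624/1369*(u.2.1:ℝ)^2*ρ^2)
    + (-576/1369*(u.2.1:ℝ)^2*ρ^3) + (72/37*(u.1:ℝ)^1*(u.2.2:ℝ)^1)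
    + (54/37*(u.1:ℝ)^1*(u.2.2:ℝ)^1*ρ^1) + (-364/1369*(u.1:ℝ)^1*(u.2.1:ℝ)^1)
    + (114/37*(u.1:ℝ)^1*(u.2.1:ℝ)^1*ρ^1) + (198/1369*(u.1:ℝ)^1*(u.2.1:ℝ)^1*ρ^2)
    + (432/1369*(u.1:ℝ)^1*(u.2.1:ℝ)^1*ρ^3) + (-1458/1369*(u.1:ℝ)^2) + (-36/37*(u.1:ℝ)^2*ρ^1)
    + (-162/1369*(u.1:ℝ)^2*ρ^2) + (-81/1369*(u.1:ℝ)^2*ρ^3) : ℝ) * hρ

lemma P0_le {ρ : ℝ} (hρ : ρ ^ 3 = ρ + 1) (x y : ℝ) :
    (254 + 339 * ρ + 453 * ρ ^ 2) / 1369 * x ^ 2 + (-109 + 1078 * ρ - 825 * ρ ^ 2) / 1369 * (x * y)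
      + (1983 + 647 * ρ - 565 * ρ ^ 2) / 1369 * y ^ 2 ≤ 1.3595 * (x ^ 2 + y ^ 2) := by
  obtain ⟨r1, r2⟩ := rho_bounds hρ
  obtain ⟨s1, s2⟩ := rho_sq_bounds hρ
  obtain ⟨A, hA⟩ : ∃ A, A = (254 + 339 * ρ + 453 * ρ ^ 2) / 1369 := ⟨_, rfl⟩
  obtain ⟨b, hb⟩ : ∃ b, b = -((-109 + 1078 * ρ - 825 * ρ ^ 2) / 1369) := ⟨_, rfl⟩
  obtain ⟨C, hC⟩ : ∃ C, C = (1983 + 647 * ρ - 565 * ρ ^ 2) / 1369 := ⟨_, rfl⟩
  have hA1 : A ≤ 1.0944 := by rw [hA]; linarith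
  have hb0 : 0 ≤ b := by rw [hb]; linarith
  have hb1 : b ≤ 0.0944 := by rw [hb]; linarith
  have hC1 : C ≤ 1.3506 := by rw [hC]; linarith
  rw [← hA, ← hC, show (-109 + 1078 * ρ - 825 * ρ ^ 2) / 1369 = -b by rw [hb]; ring]
  have h1 := mul_nonneg hb0 (sq_nonneg (5.45 * x + y))
  have h2 : 0 ≤ (0.0944 - b) * (5.45 ^ 2 * x ^ 2 + y ^ 2) :=
    mul_nonneg (by linarith) (by positivity)
  have h3 : A * x ^ 2 ≤ 1.0944 * x ^ 2 := mul_le_mul_of_nonneg_right hA1 (sq_nonneg _)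
  have h4 : C * y ^ 2 ≤ 1.3506 * y ^ 2 := mul_le_mul_of_nonneg_right hC1 (sq_nonneg _)
  have h5 := sq_nonneg x
  have h6 := sq_nonneg y
  nlinarith

lemma P0_ge {ρ : ℝ} (hρ : ρ ^ 3 = ρ + 1) (x y : ℝ) : 1.085 * (x ^ 2 + y ^ 2) ≤
    (254 + 339 * ρ + 453 * ρ ^ 2) / 1369 * x ^ 2 + (-109 + 1078 * ρ - 825 * ρ ^ 2) / 1369 * (x * y)
      + (1983 + 647 * ρ - 565 * ρ ^ 2) / 1369 * y ^ 2 := by
  obtain ⟨r1, r2⟩ := rho_bounds hρ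
  obtain ⟨s1, s2⟩ := rho_sq_bounds hρ
  obtain ⟨A, hA⟩ : ∃ A, A = (254 + 339 * ρ + 453 * ρ ^ 2) / 1369 := ⟨_, rfl⟩
  obtain ⟨b, hb⟩ : ∃ b, b = -((-109 + 1078 * ρ - 825 * ρ ^ 2) / 1369) := ⟨_, rfl⟩
  obtain ⟨C, hC⟩ : ∃ C, C = (1983 + 647 * ρ - 565 * ρ ^ 2) / 1369 := ⟨_, rfl⟩
  have hA1 : 1.0941 ≤ A := by rw [hA]; linarith
  have hb0 : 0 ≤ b := by rw [hb]; linarith
  have hb1 : b ≤ 0.0944 := by rw [hb]; linarith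
  have hC1 : 1.35 ≤ C := by rw [hC]; linarith
  rw [← hA, ← hC, show (-109 + 1078 * ρ - 825 * ρ ^ 2) / 1369 = -b by rw [hb]; ring]
  have h1 := mul_nonneg hb0 (sq_nonneg (0.19 * x - y))
  have h2 : 0 ≤ (0.0944 - b) * (0.19 ^ 2 * x ^ 2 + y ^ 2) :=
    mul_nonneg (by linarith) (by positivity)
  have h3 : 1.0941 * x ^ 2 ≤ A * x ^ 2 := mul_le_mul_of_nonneg_right hA1 (sq_nonneg _)
  have h4 : 1.35 * y ^ 2 ≤ C * y ^ 2 := mul_le_mul_of_nonneg_right hC1 (sq_nonneg _)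
  have h5 := sq_nonneg x
  have h6 := sq_nonneg y
  nlinarith

lemma int_abs_le_sq (x : ℤ) : |(x : ℝ)| ≤ (x : ℝ) ^ 2 := by
  have h : |x| ≤ x ^ 2 := by
    rw [← sq_abs]
    rcases (abs_nonneg x).eq_or_lt with h | h
    · rw [← h]; norm_num
    · nlinarith
  exact_mod_cast h

/-- The mixed term. -/
lemma mixed {ρ : ℝ} (hρ : ρ ^ 3 = ρ + 1) (u : Pt) {a : ℝ} (ha : |a| ≤ 1 / 9000) :
    |a * ((-138 - 123 * ρ - 18 * ρ ^ 2) / 37 * (u.1 : ℝ)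
      + (35 + 180 * ρ - 174 * ρ ^ 2) / 37 * (u.2.1 : ℝ))|
      ≤ 0.001 * (n2 u : ℝ) := by
  obtain ⟨r1, r2⟩ := rho_bounds hρ
  obtain ⟨s1, s2⟩ := rho_sq_bounds hρ
  have h1 := int_abs_le_sq u.1
  have h2 := int_abs_le_sq u.2.1
  have hD : |(-138 - 123 * ρ - 18 * ρ ^ 2) / 37| ≤ 9 := by rw [abs_le]; constructor <;> linarith
  have hE : |(35 + 180 * ρ - 174 * ρ ^ 2) / 37| ≤ 9 := by rw [abs_le]; constructor <;> linarith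
  have hn : (n2 u : ℝ) = (u.1 : ℝ) ^ 2 + (u.2.1 : ℝ) ^ 2 := by rw [n2_cast]; rfl
  rw [abs_mul]
  have h3 : |(-138 - 123 * ρ - 18 * ρ ^ 2) / 37 * (u.1 : ℝ)
      + (35 + 180 * ρ - 174 * ρ ^ 2) / 37 * u.2.1| ≤ 9 * (n2 u : ℝ) := by
    refine (abs_add_le _ _).trans ?_
    rw [abs_mul, abs_mul, hn, mul_add]
    exact add_le_add (mul_le_mul hD h1 (abs_nonneg _) (by norm_num))
      (mul_le_mul hE h2 (abs_nonneg _) (by norm_num))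
  calc _ ≤ 1 / 9000 * (9 * (n2 u : ℝ)) := mul_le_mul ha h3 (abs_nonneg _) (by norm_num)
    _ = 0.001 * n2 u := by ring

lemma Q_le {ρ : ℝ} (hρ : ρ ^ 3 = ρ + 1) (u : Pt) (ha : |ah (sv ρ) (tv ρ) u| ≤ 1 / 9000) :
    Q ρ (u.1 - 2 * u.2.2) (-2 * u.1 + 2 * u.2.1 + 3 * u.2.2) (-u.2.1)
      ≤ 1.3605 * (n2 u : ℝ) + 0.0001 := by
  obtain ⟨r1, r2⟩ := rho_bounds hρ
  obtain ⟨s1, s2⟩ := rho_sq_bounds hρ
  rw [Q_eq_Pf hρ]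
  unfold Pf
  have h1 := P0_le hρ u.1 u.2.1
  have h2 := (abs_le.mp (mixed hρ u ha)).2
  have hn : (n2 u : ℝ) = (u.1 : ℝ) ^ 2 + (u.2.1 : ℝ) ^ 2 := by rw [n2_cast]; rfl
  have h3 : (ah (sv ρ) (tv ρ) u) ^ 2 ≤ (1 / 9000) ^ 2 := sq_le_sq' (abs_le.mp ha).1 (abs_le.mp ha).2
  have h4 : (-5 + 6 * ρ + 9 * ρ ^ 2) * (ah (sv ρ) (tv ρ) u) ^ 2 ≤ 20 * (1 / 9000) ^ 2 :=
    mul_le_mul (by linarith) h3 (sq_nonneg _) (by norm_num)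
  rw [← hn] at h1
  norm_num at h1 h2 h4 ⊢
  linarith

lemma Q_ge {ρ : ℝ} (hρ : ρ ^ 3 = ρ + 1) (u : Pt) (ha : |ah (sv ρ) (tv ρ) u| ≤ 1 / 9000) :
    1.084 * (n2 u : ℝ) ≤
      Q ρ (u.1 - 2 * u.2.2) (-2 * u.1 + 2 * u.2.1 + 3 * u.2.2) (-u.2.1) := by
  obtain ⟨r1, r2⟩ := rho_bounds hρ
  obtain ⟨s1, s2⟩ := rho_sq_bounds hρ
  rw [Q_eq_Pf hρ]
  unfold Pf
  have h1 := P0_ge hρ u.1 u.2.1
  have h2 := (abs_le.mp (mixed hρ u ha)).1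
  have hn : (n2 u : ℝ) = (u.1 : ℝ) ^ 2 + (u.2.1 : ℝ) ^ 2 := by rw [n2_cast]; rfl
  have h4 : 0 ≤ (-5 + 6 * ρ + 9 * ρ ^ 2) * (ah (sv ρ) (tv ρ) u) ^ 2 :=
    mul_nonneg (by linarith) (sq_nonneg _)
  rw [← hn] at h1
  norm_num at h1 h2 ⊢
  linarith

/-- The points of the chain. -/
def zt (k : ℕ) : Pt :=
  (-3 * (uv k).1 - 2 * (uv k).2.1 - 4 * (uv k).2.2, -(uv k).2.2,
    -2 * (uv k).1 - (uv k).2.1 - 2 * (uv k).2.2)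

lemma zt_coord (k : ℕ) : (zt k).1 - 2 * (zt k).2.2 = (uv k).1 ∧
    -2 * (zt k).1 + 2 * (zt k).2.1 + 3 * (zt k).2.2 = (uv k).2.1 ∧ -(zt k).2.1 = (uv k).2.2 := by
  refine ⟨?_, ?_, ?_⟩ <;> simp only [zt] <;> ring

lemma ah_zt {ρ : ℝ} (hρ : ρ ^ 3 = ρ + 1) (k : ℕ) :
    (2 - 3 * ρ) * ah (sv ρ) (tv ρ) (zt k) * ρ ^ k = 1 := by
  rw [← L_eq_ah hρ]
  obtain ⟨h1, h2, h3⟩ := zt_coord k
  rw [h1, h2, h3]
  exact L_uv hρ k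

lemma Q_zt {ρ : ℝ} (hρ : ρ ^ 3 = ρ + 1) (k : ℕ) :
    Q ρ ((zt k).1 - 2 * (zt k).2.2) (-2 * (zt k).1 + 2 * (zt k).2.1 + 3 * (zt k).2.2)
      (-(zt k).2.1) = ρ ^ k := by
  obtain ⟨h1, h2, h3⟩ := zt_coord k
  rw [h1, h2, h3]
  exact Q_uv hρ k

lemma pow30 {ρ : ℝ} (hρ : ρ ^ 3 = ρ + 1) (k : ℕ) (hk : 30 ≤ k) : 4600 < ρ ^ k := by
  have hr := (rho_bounds hρ).1
  calc (4600 : ℝ) < 1.3247 ^ 30 := by norm_num
    _ ≤ ρ ^ 30 := pow_le_pow_left₀ (by norm_num) hr.le 30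
    _ ≤ ρ ^ k := pow_le_pow_right₀ (by linarith) hk

lemma abs_ah_zt {ρ : ℝ} (hρ : ρ ^ 3 = ρ + 1) (k : ℕ) :
    (3 * ρ - 2) * |ah (sv ρ) (tv ρ) (zt k)| * ρ ^ k = 1 := by
  have h := congrArg abs (ah_zt hρ k)
  have hρ0 : 0 < ρ := by linarith [(rho_bounds hρ).1]
  rw [abs_mul, abs_mul, abs_one, abs_of_pos (pow_pos hρ0 k),
    abs_of_neg (by linarith [(rho_bounds hρ).1] : 2 - 3 * ρ < 0)] at h
  rw [← h]; ring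

lemma ah_zt_small {ρ : ℝ} (hρ : ρ ^ 3 = ρ + 1) (k : ℕ) (hk : 30 ≤ k) :
    |ah (sv ρ) (tv ρ) (zt k)| ≤ 1 / 9000 := by
  have h := abs_ah_zt hρ k
  have h1 := pow30 hρ k hk
  have h2 := (rho_bounds hρ).1
  by_contra hcon
  push Not at hcon
  have h3 : 1.97 * (1 / 9000) ≤ (3 * ρ - 2) * |ah (sv ρ) (tv ρ) (zt k)| :=
    mul_le_mul (by linarith) hcon.le (by norm_num) (by linarith)
  have h4 : 1.97 * (1 / 9000) * 4600 < (3 * ρ - 2) * |ah (sv ρ) (tv ρ) (zt k)| * ρ ^ k := by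
    apply mul_lt_mul' h3 h1 (by norm_num)
    exact lt_of_lt_of_le (by norm_num) h3
  rw [h] at h4
  norm_num at h4

/-- The chain points are best approximation points. -/
lemma bpt_zt {ρ : ℝ} (hρ : ρ ^ 3 = ρ + 1) (k : ℕ) (hk : 30 ≤ k) : BPt (sv ρ) (tv ρ) (zt k) := by
  have hρ0 : 0 < ρ := by linarith [(rho_bounds hρ).1]
  have hbig := pow30 hρ k hk
  have hs := ah_zt_small hρ k hk
  have hQ1 := Q_le hρ (zt k) hs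
  have hQ2 := Q_ge hρ (zt k) hs
  rw [Q_zt hρ] at hQ1 hQ2
  have hn0 : n2 (zt k) ≠ 0 := by
    intro h0
    rw [h0] at hQ1
    norm_num at hQ1
    linarith
  have hn1 : (1 : ℝ) ≤ n2 (zt k) := by exact_mod_cast (by omega : 1 ≤ n2 (zt k))
  refine ⟨hn0, fun u hu ha => ?_⟩
  have hQ3 := Q_le hρ u (ha.trans hs)
  have hu' : (n2 u : ℝ) ≤ n2 (zt k) := by exact_mod_cast hu
  have hL : |L ρ (u.1 - 2 * u.2.2) (-2 * u.1 + 2 * u.2.1 + 3 * u.2.2) (-u.2.1)| * ρ ^ k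
      ≤ 5 / 4 := by
    rw [L_eq_ah hρ, abs_mul, abs_of_neg (by linarith [(rho_bounds hρ).1] : 2 - 3 * ρ < 0)]
    have h1 := abs_ah_zt hρ k
    have h2 : (3 * ρ - 2) * |ah (sv ρ) (tv ρ) u| * ρ ^ k
        ≤ (3 * ρ - 2) * |ah (sv ρ) (tv ρ) (zt k)| * ρ ^ k := by
      apply mul_le_mul_of_nonneg_right _ (by positivity)
      exact mul_le_mul_of_nonneg_left ha (by linarith [(rho_bounds hρ).1])
    rw [show -(2 - 3 * ρ) = 3 * ρ - 2 by ring]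
    linarith
  have hQ : Q ρ (u.1 - 2 * u.2.2) (-2 * u.1 + 2 * u.2.1 + 3 * u.2.2) (-u.2.1)
      ≤ 1.26 * ρ ^ k := by
    norm_num at hQ2 hQ3 ⊢
    linarith
  obtain ⟨c1, c2, c3⟩ := zt_coord k
  rcases small_uk hρ k _ _ _ hL hQ with ⟨h1, h2, h3⟩ | ⟨h1, h2, h3⟩ | ⟨h1, h2, h3⟩
  · left
    ext <;> simp only [Prod.fst_zero, Prod.snd_zero] <;> omega
  · right; left
    ext <;> omega
  · right; right
    ext <;> simp only [Prod.fst_neg, Prod.snd_neg] <;> omega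

lemma zt_lt {ρ : ℝ} (hρ : ρ ^ 3 = ρ + 1) (k : ℕ) (hk : 30 ≤ k) :
    n2 (zt k) < n2 (zt (k + 1)) := by
  have hρ1 : 1 < ρ := by linarith [(rho_bounds hρ).1]
  have h1 := abs_ah_zt hρ k
  have h2 := abs_ah_zt hρ (k + 1)
  have hpk : 0 < ρ ^ k := by positivity
  have h3 : 0 < |ah (sv ρ) (tv ρ) (zt (k + 1))| := by
    rcases (abs_nonneg (ah (sv ρ) (tv ρ) (zt (k + 1)))).eq_or_lt with h | h
    · rw [← h] at h2; norm_num at h2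
    · exact h
  have h4 : |ah (sv ρ) (tv ρ) (zt (k + 1))| < |ah (sv ρ) (tv ρ) (zt k)| := by
    have e : (3 * ρ - 2) * ρ ^ k * (|ah (sv ρ) (tv ρ) (zt (k + 1))| * ρ)
        = (3 * ρ - 2) * ρ ^ k * |ah (sv ρ) (tv ρ) (zt k)| := by
      rw [pow_succ] at h2
      linarith
    have e2 := mul_left_cancel₀ (by
      have : 0 < 3 * ρ - 2 := by linarith
      positivity) e
    rw [← e2]
    nlinarith
  by_contra hcon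
  push Not at hcon
  rcases (bpt_zt hρ k hk).2 _ hcon h4.le with h | h | h
  · rw [h, map_zero, abs_zero] at h3; exact lt_irrefl _ h3
  · rw [h] at h4; exact lt_irrefl _ h4
  · rw [h, map_neg, abs_neg] at h4; exact lt_irrefl _ h4

/-- The squared lengths of the chain points. -/
def bt (j : ℕ) : ℕ := n2 (zt (30 + j))

lemma bt_lt {ρ : ℝ} (hρ : ρ ^ 3 = ρ + 1) (j : ℕ) : bt j < bt (j + 1) :=
  zt_lt hρ (30 + j) (by omega)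

lemma bt_isB {ρ : ℝ} (hρ : ρ ^ 3 = ρ + 1) (j : ℕ) : IsB (sv ρ) (tv ρ) (bt j) :=
  ⟨zt (30 + j), bpt_zt hρ (30 + j) (by omega), rfl⟩

lemma infinite_B {ρ : ℝ} (hρ : ρ ^ 3 = ρ + 1) : {q : ℕ | IsB (sv ρ) (tv ρ) q}.Infinite := by
  apply Set.Infinite.mono (s := Set.range bt)
  · rintro _ ⟨j, rfl⟩
    exact bt_isB hρ j
  · exact Set.infinite_range_of_injective (strictMono_nat_of_lt_succ (bt_lt hρ)).injective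

lemma nth_le {ρ : ℝ} (hρ : ρ ^ 3 = ρ + 1) (j : ℕ) : Nat.nth (IsB (sv ρ) (tv ρ)) j ≤ bt j := by
  classical
  have hcount : ∀ i : ℕ, i ≤ Nat.count (IsB (sv ρ) (tv ρ)) (bt i) := by
    intro i
    induction i with
    | zero => exact Nat.zero_le _
    | succ i ih =>
      calc i + 1 ≤ Nat.count (IsB (sv ρ) (tv ρ)) (bt i) + 1 := by omega
        _ = Nat.count (IsB (sv ρ) (tv ρ)) (bt i + 1) := by
          rw [Nat.count_succ, if_pos (bt_isB hρ i)]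
        _ ≤ Nat.count (IsB (sv ρ) (tv ρ)) (bt (i + 1)) := Nat.count_monotone _ (bt_lt hρ i)
  calc Nat.nth (IsB (sv ρ) (tv ρ)) j
      ≤ Nat.nth (IsB (sv ρ) (tv ρ)) (Nat.count (IsB (sv ρ) (tv ρ)) (bt j)) :=
        Nat.nth_monotone (infinite_B hρ) (hcount j)
    _ = bt j := Nat.nth_count (bt_isB hρ j)

lemma nth_le_pow {ρ : ℝ} (hρ : ρ ^ 3 = ρ + 1) (j : ℕ) :
    (Nat.nth (IsB (sv ρ) (tv ρ)) j : ℝ) ≤ ρ ^ (30 + j) := by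
  have h1 : (Nat.nth (IsB (sv ρ) (tv ρ)) j : ℝ) ≤ bt j := by exact_mod_cast nth_le hρ j
  have h2 := Q_ge hρ (zt (30 + j)) (ah_zt_small hρ (30 + j) (by omega))
  rw [Q_zt hρ] at h2
  have h3 : (bt j : ℝ) = n2 (zt (30 + j)) := rfl
  have h4 : (0 : ℝ) ≤ n2 (zt (30 + j)) := Nat.cast_nonneg _
  rw [h3] at h1
  norm_num at h2
  linarith

/-- The independence condition holds. -/
lemma adm {ρ : ℝ} (hρ : ρ ^ 3 = ρ + 1) : Adm (sv ρ) (tv ρ) := by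
  intro z hz h0
  have h1 := L_mul_Q hρ (z.1 - 2 * z.2.2) (-2 * z.1 + 2 * z.2.1 + 3 * z.2.2) (-z.2.1)
  rw [L_eq_ah hρ, h0, mul_zero, zero_mul] at h1
  obtain ⟨a, b, c⟩ := Nf_eq_zero _ _ _ (by exact_mod_cast h1.symm)
  apply hz
  ext <;> simp only [Prod.fst_zero, Prod.snd_zero] <;> omega

end Pool.Agent.Work.MP_7453a1_nt_helper12.E
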