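import Mathlib
import Pool.Agent.Work.MP_7453a1_nt_helper12.EDefs
import Pool.Agent.Work.MP_7453a1_nt_helper12.TLow
import Pool.Agent.Work.MP_7453a1_nt_helper12.TUp

set_option autoImplicit false

/-!
`m = 2`, `n = 1`: translation to `2 × 1` matrices and the exact value.
-/

namespace Pool.Agent.Work.MP_7453a1_nt_helper12.E

open Pool.Agent.Work.MP_7453a1_nt Filter Topology
open scoped ENNReal

section lim

/-- Lower bounds for the `liminf`. -/
lemma le_liminf_of {F : ℕ → ℝ} {c σ : ℝ} (hc : 0 < c) (hσ : 0 < σ)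
    (h : ∀ᶠ ν in atTop, c * σ ^ ν ≤ F ν) :
    ENNReal.ofReal σ ≤ liminf (fun ν : ℕ => ENNReal.ofReal (F ν ^ (1 / (ν : ℝ)))) atTop := by
  have hlim : Tendsto (fun ν : ℕ => ENNReal.ofReal (c ^ (1 / (ν : ℝ)) * σ)) atTop
      (𝓝 (ENNReal.ofReal σ)) := by
    apply ENNReal.tendsto_ofReal
    have h1 : Tendsto (fun ν : ℕ => c ^ (1 / (ν : ℝ))) atTop (𝓝 (c ^ (0 : ℝ))) := by
      apply Tendsto.rpow tendsto_const_nhds tendsto_one_div_atTop_nhds_zero_nat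
      left
      positivity
    rw [Real.rpow_zero] at h1
    simpa using h1.mul_const σ
  rw [← hlim.liminf_eq]
  refine liminf_le_liminf ?_
  filter_upwards [eventually_ge_atTop 1, h] with ν hν hM
  apply ENNReal.ofReal_le_ofReal
  have hν0 : (0 : ℝ) < ν := by exact_mod_cast hν
  calc c ^ (1 / (ν : ℝ)) * σ = (c * σ ^ ν) ^ (1 / (ν : ℝ)) := by
        rw [Real.mul_rpow (by positivity) (by positivity)]
        congr 1
        rw [one_div, Real.pow_rpow_inv_natCast hσ.le (by omega)]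
    _ ≤ F ν ^ (1 / (ν : ℝ)) := Real.rpow_le_rpow (by positivity) hM (by positivity)

/-- Upper bounds for the `liminf`. -/
lemma liminf_le_of {F : ℕ → ℝ} {c σ : ℝ} (hc : 0 < c) (hσ : 0 < σ) (hF : ∀ ν, 0 ≤ F ν)
    (h : ∀ᶠ ν in atTop, F ν ≤ c * σ ^ ν) :
    liminf (fun ν : ℕ => ENNReal.ofReal (F ν ^ (1 / (ν : ℝ)))) atTop ≤ ENNReal.ofReal σ := by
  have hlim : Tendsto (fun ν : ℕ => ENNReal.ofReal (c ^ (1 / (ν : ℝ)) * σ)) atTop
      (𝓝 (ENNReal.ofReal σ)) := by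
    apply ENNReal.tendsto_ofReal
    have h1 : Tendsto (fun ν : ℕ => c ^ (1 / (ν : ℝ))) atTop (𝓝 (c ^ (0 : ℝ))) := by
      apply Tendsto.rpow tendsto_const_nhds tendsto_one_div_atTop_nhds_zero_nat
      left
      positivity
    rw [Real.rpow_zero] at h1
    simpa using h1.mul_const σ
  rw [← hlim.liminf_eq]
  refine liminf_le_liminf ?_
  filter_upwards [eventually_ge_atTop 1, h] with ν hν hM
  apply ENNReal.ofReal_le_ofReal
  have hν0 : (0 : ℝ) < ν := by exact_mod_cast hν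
  calc F ν ^ (1 / (ν : ℝ)) ≤ (c * σ ^ ν) ^ (1 / (ν : ℝ)) :=
        Real.rpow_le_rpow (hF ν) hM (by positivity)
    _ = c ^ (1 / (ν : ℝ)) * σ := by
        rw [Real.mul_rpow (by positivity) (by positivity)]
        congr 1
        rw [one_div, Real.pow_rpow_inv_natCast hσ.le (by omega)]

end lim

/-- The point attached to a pair of integer vectors. -/
def toPt (x : Fin 2 → ℤ) (y : Fin 1 → ℤ) : Pt := (x 0, x 1, y 0)

lemma err_eq (Θ : Matrix (Fin 1) (Fin 2) ℝ) (x : Fin 2 → ℤ) (y : Fin 1 → ℤ) :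
    err Θ x y = |ah (Θ 0 0) (Θ 0 1) (toPt x y)| := by
  unfold err
  simp only [Fin.sum_univ_two, Finset.univ_unique, Fin.default_eq_zero, Finset.sum_singleton]
  rw [Real.sqrt_sq_eq_abs]
  rfl

lemma lenSq_eq (x : Fin 2 → ℤ) (y : Fin 1 → ℤ) : lenSq x = n2 (toPt x y) := by
  simp [lenSq, n2, toPt, Fin.sum_univ_two]

lemma toPt_eq_zero (x : Fin 2 → ℤ) (y : Fin 1 → ℤ) : toPt x y = 0 ↔ x = 0 ∧ y = 0 := by
  constructor
  · intro h
    simp only [toPt, Prod.mk_eq_zero] at h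
    obtain ⟨h1, h2, h3⟩ := h
    refine ⟨?_, ?_⟩ <;> funext i <;> fin_cases i <;> simpa
  · rintro ⟨rfl, rfl⟩
    rfl

lemma toPt_inj (x x' : Fin 2 → ℤ) (y y' : Fin 1 → ℤ) :
    toPt x y = toPt x' y' ↔ x = x' ∧ y = y' := by
  constructor
  · intro h
    simp only [toPt, Prod.mk.injEq] at h
    obtain ⟨h1, h2, h3⟩ := h
    refine ⟨?_, ?_⟩ <;> funext i <;> fin_cases i <;> simpa
  · rintro ⟨rfl, rfl⟩
    rfl

lemma toPt_neg (x : Fin 2 → ℤ) (y : Fin 1 → ℤ) : -toPt x y = toPt (-x) (-y) := rfl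

lemma n2_toPt_ne (x : Fin 2 → ℤ) (y : Fin 1 → ℤ) : n2 (toPt x y) ≠ 0 ↔ x ≠ 0 := by
  rw [not_iff_not]
  constructor
  · intro h
    obtain ⟨h1, h2⟩ := n2_eq_zero h
    funext i
    fin_cases i
    · exact h1
    · exact h2
  · rintro rfl
    simp [n2, toPt]

lemma exists_toPt (u : Pt) : ∃ x y, u = toPt x y :=
  ⟨![u.1, u.2.1], ![u.2.2], rfl⟩

lemma isBest_iff' (Θ : Matrix (Fin 1) (Fin 2) ℝ) (x : Fin 2 → ℤ) (y : Fin 1 → ℤ) :
    IsBest Θ x y ↔ BPt (Θ 0 0) (Θ 0 1) (toPt x y) := by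
  unfold IsBest BPt
  rw [n2_toPt_ne]
  refine and_congr_right fun _ => ?_
  constructor
  · intro h u hu ha
    obtain ⟨x', y', rfl⟩ := exists_toPt u
    rw [toPt_eq_zero, toPt_inj, toPt_neg, toPt_inj]
    exact h x' y' (by rw [lenSq_eq x' y', lenSq_eq x y]; exact hu) (by rw [err_eq, err_eq]; exact ha)
  · intro h x' y' hx ha
    have := h (toPt x' y') (by rw [← lenSq_eq, ← lenSq_eq]; exact hx) (by
      rw [← err_eq, ← err_eq]; exact ha)
    rwa [toPt_eq_zero, toPt_inj, toPt_neg, toPt_inj] at this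

lemma isB_iff (Θ : Matrix (Fin 1) (Fin 2) ℝ) :
    IsBestLenSq Θ = IsB (Θ 0 0) (Θ 0 1) := by
  funext N
  apply propext
  constructor
  · rintro ⟨x, y, h, rfl⟩
    exact ⟨toPt x y, (isBest_iff' Θ x y).mp h, (lenSq_eq x y).symm⟩
  · rintro ⟨u, h, rfl⟩
    obtain ⟨x, y, rfl⟩ := exists_toPt u
    exact ⟨x, y, (isBest_iff' Θ x y).mpr h, lenSq_eq x y⟩

lemma adm_iff (Θ : Matrix (Fin 1) (Fin 2) ℝ) : Admissible Θ ↔ Adm (Θ 0 0) (Θ 0 1) := by
  constructor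
  · intro h u hu h0
    obtain ⟨x, y, rfl⟩ := exists_toPt u
    by_cases hx : x = 0
    · subst hx
      rw [ah_apply] at h0
      simp [toPt] at h0
      apply hu
      rw [toPt_eq_zero]
      refine ⟨rfl, ?_⟩
      funext i
      fin_cases i
      exact h0
    · obtain ⟨i, hi⟩ := h x hx y
      fin_cases i
      apply hi
      rw [ah_apply] at h0
      simp only [toPt] at h0
      simp only [Fin.zero_eta, Fin.isValue, Fin.sum_univ_two]
      linarith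
  · intro h x hx y
    refine ⟨0, fun h0 => ?_⟩
    have h1 : toPt x y ≠ 0 := by
      rw [Ne, toPt_eq_zero]
      exact fun h => hx h.1
    apply h _ h1
    rw [ah_apply]
    simp only [Fin.isValue, Fin.sum_univ_two] at h0
    simp only [toPt]
    linarith

/-- The lower bound for `m = 2`, `n = 1`. -/
theorem le_G21 {Θ : Matrix (Fin 1) (Fin 2) ℝ} (hΘ : Admissible Θ) {ρ : ℝ} (hρ : ρ ^ 3 = ρ + 1) :
    (∃ c : ℝ, 0 < c ∧ ∀ ν, c * (√ρ) ^ ν ≤ M Θ ν) ∧ ENNReal.ofReal (√ρ) ≤ G Θ := by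
  have hA := (adm_iff Θ).mp hΘ
  obtain ⟨w, hw⟩ := exists_w hA
  obtain ⟨c, hc, h⟩ := growth hA hw hρ
  have hρ1 : 1 < ρ := by linarith [(rho_bounds hρ).1]
  have hρ0 : 0 < ρ := by linarith
  have key : ∀ ν, √(c / ρ) * (√ρ) ^ ν ≤ M Θ ν := by
    intro ν
    unfold M
    rw [isB_iff, ← (hw (ν - 1)).2.1]
    apply Real.le_sqrt_of_sq_le
    have e : (√(c / ρ) * √ρ ^ ν) ^ 2 = c / ρ * ρ ^ ν := by
      rw [mul_pow, Real.sq_sqrt (by positivity), ← pow_mul, mul_comm ν 2, pow_mul,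
        Real.sq_sqrt hρ0.le]
    rw [e]
    refine le_trans ?_ (h (ν - 1))
    rw [div_mul_eq_mul_div, div_le_iff₀ hρ0, mul_assoc]
    apply mul_le_mul_of_nonneg_left _ hc.le
    rw [← pow_succ]
    exact pow_le_pow_right₀ hρ1.le (by omega)
  refine ⟨⟨√(c / ρ), by positivity, key⟩, ?_⟩
  exact le_liminf_of (c := √(c / ρ)) (by positivity) (by positivity)
    (Filter.Eventually.of_forall key)

/-- The example for `m = 2`, `n = 1`. -/
noncomputable def Th21 (ρ : ℝ) : Matrix (Fin 1) (Fin 2) ℝ := !![sv ρ, tv ρ]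

theorem G21_le {ρ : ℝ} (hρ : ρ ^ 3 = ρ + 1) :
    Admissible (Th21 ρ) ∧ (∀ ν, M (Th21 ρ) ν ≤ √(ρ ^ 30) * (√ρ) ^ ν) ∧
      G (Th21 ρ) ≤ ENNReal.ofReal (√ρ) := by
  have hρ1 : 1 < ρ := by linarith [(rho_bounds hρ).1]
  have hρ0 : 0 < ρ := by linarith
  have hB : IsBestLenSq (Th21 ρ) = IsB (sv ρ) (tv ρ) := isB_iff _
  have key : ∀ ν, M (Th21 ρ) ν ≤ √(ρ ^ 30) * (√ρ) ^ ν := by
    intro ν
    unfold M
    rw [hB]
    apply Real.sqrt_le_iff.mpr
    refine ⟨by positivity, ?_⟩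
    have e : (√(ρ ^ 30) * √ρ ^ ν) ^ 2 = ρ ^ (30 + ν) := by
      rw [mul_pow, Real.sq_sqrt (by positivity), ← pow_mul, mul_comm ν 2, pow_mul,
        Real.sq_sqrt hρ0.le, pow_add]
    rw [e]
    exact (nth_le_pow hρ (ν - 1)).trans (pow_le_pow_right₀ hρ1.le (by omega))
  refine ⟨(adm_iff _).mpr (adm hρ), key, ?_⟩
  exact liminf_le_of (c := √(ρ ^ 30)) (by positivity) (by positivity)
    (fun ν => Real.sqrt_nonneg _) (Filter.Eventually.of_forall key)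

/-- **The exact value for `m = 2`, `n = 1`.** -/
theorem exact21 {ρ : ℝ} (hρ : ρ ^ 3 = ρ + 1) : g 2 1 = ENNReal.ofReal (√ρ) := by
  obtain ⟨h1, _, h2⟩ := G21_le hρ
  exact le_antisymm (iInf₂_le_of_le (Th21 ρ) h1 h2) (le_iInf₂ fun _ hΘ => (le_G21 hΘ hρ).2)

end Pool.Agent.Work.MP_7453a1_nt_helper12.E
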